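import Mathlib
import Pool.Agent.Lib.MP_89bcae_ag.Z.Defs

/-!
# The equation of the curve at infinity
-/

open Polynomial

open scoped Classical

namespace Pool.Agent.Lib.MP_89bcae_ag.Zc

open Pool.Agent.Lib.MP_89bcae_ag.Zs

section

variable {F L : Type} [Field F] [Field L] [Algebra F[X] L] {e : ℕ} {φ : F[X][X]}

variable (F L) in

/-- The homomorphism of `F[X]` in `L` which maps `X` to `1 / t`. -/
noncomputable def invT : F[X] →+* L :=
  eval₂RingHom ((algebraMap F[X] L).comp C) (algebraMap F[X] L X)⁻¹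

lemma invT_C (a : F) : invT F L (C a) = algebraMap F[X] L (C a) := by
  show eval₂ _ _ (C a) = _
  rw [eval₂_C]
  rfl

lemma invT_X : invT F L X = (algebraMap F[X] L X)⁻¹ := by
  show eval₂ _ _ X = _
  rw [eval₂_X]

lemma coeff_atInfinity {i : ℕ} (hi : i ≤ φ.natDegree) :
    (atInfinity e φ).coeff i = (φ.coeff i).reflect (e * (φ.natDegree - i)) := by
  unfold atInfinity
  rw [finsetSum_coeff, Finset.sum_eq_single i]
  · rw [coeff_C_mul_X_pow, if_pos rfl]
  · intro j _ hj
    rw [coeff_C_mul_X_pow, if_neg (Ne.symm hj)]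
  · intro h
    exact absurd (Finset.mem_range.2 (Nat.lt_succ_of_le hi)) h

lemma coeff_atInfinity' {i : ℕ} (hi : φ.natDegree < i) : (atInfinity e φ).coeff i = 0 := by
  unfold atInfinity
  rw [finsetSum_coeff]
  apply Finset.sum_eq_zero
  intro j hj
  rw [coeff_C_mul_X_pow, if_neg]
  have := Finset.mem_range.1 hj
  omega

lemma atInfinity_monic (hφ : φ.Monic) : (atInfinity e φ).Monic := by
  refine monic_of_natDegree_le_of_coeff_eq_one φ.natDegree ?_ ?_
  · rw [natDegree_le_iff_coeff_eq_zero]
    intro i hi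
    exact coeff_atInfinity' hi
  · rw [coeff_atInfinity le_rfl, hφ.coeff_natDegree, Nat.sub_self, Nat.mul_zero, reflect_one, pow_zero]

lemma atInfinity_natDegree (hφ : φ.Monic) : (atInfinity e φ).natDegree = φ.natDegree := by
  apply le_antisymm
  · rw [natDegree_le_iff_coeff_eq_zero]
    intro i hi
    exact coeff_atInfinity' hi
  · apply le_natDegree_of_ne_zero
    rw [coeff_atInfinity le_rfl, hφ.coeff_natDegree, Nat.sub_self, Nat.mul_zero, reflect_one, pow_zero]
    exact one_ne_zero

/-- The change of coordinates `x = t ^ e x'`, `y = t ^ (n e / N) y'`. -/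
lemma atInfinity_scale {N e' : ℕ} (he : e = N * e') (hdeg : ∀ i, (φ.coeff i).natDegree ≤ e * (φ.natDegree - i))
    (ht : algebraMap F[X] L X ≠ 0) :
    C (((algebraMap F[X] L X) ^ (e' * φ.natDegree)) ^ N) * (atInfinity e φ).map (invT F L) =
      (φ.map (algebraMap F[X] L)).comp (C ((algebraMap F[X] L X) ^ e) * X) := by
  ext i
  rw [coeff_C_mul, comp_C_mul_X_coeff, coeff_map, coeff_map]
  rcases Nat.lt_or_ge φ.natDegree i with hi | hi
  · rw [coeff_atInfinity' hi, coeff_eq_zero_of_natDegree_lt hi, map_zero, map_zero, mul_zero, zero_mul]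
  · rw [coeff_atInfinity hi]
    have hx : Invertible (algebraMap F[X] L X) := invertibleOfNonzero ht
    have h1 := eval₂_reflect_mul_pow ((algebraMap F[X] L).comp C) (algebraMap F[X] L X) _ _ (hdeg i)
    have h2 : eval₂ ((algebraMap F[X] L).comp C) (algebraMap F[X] L X) (φ.coeff i) =
        algebraMap F[X] L (φ.coeff i) := by
      have h3 := Polynomial.hom_eval₂ (φ.coeff i) C (algebraMap F[X] L) X
      rw [← h3, eval₂_C_X]
    have h4 : invT F L ((φ.coeff i).reflect (e * (φ.natDegree - i))) *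
        algebraMap F[X] L X ^ (e * (φ.natDegree - i)) = algebraMap F[X] L (φ.coeff i) := by
      rw [← h2, ← h1, invOf_eq_inv]
      rfl
    rw [← h4, ← pow_mul, ← pow_mul]
    have h5 : e' * φ.natDegree * N = e * (φ.natDegree - i) + e * i := by
      rw [← Nat.mul_add, Nat.sub_add_cancel hi, he]
      ring
    rw [h5, pow_add]
    ring

end

end Pool.Agent.Lib.MP_89bcae_ag.Zc
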