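import Mathlib
import Pool.Agent.Lib.MP_89bcae_ag.Z.Ctx

/-!
# The model of the surface over `F(t)` and the automorphisms over `k'(t)`
-/

attribute [local instance 100000] Pool.Agent.Lib.MP_89bcae_ag.Brt.tffFields
attribute [local instance 100000] Pool.Agent.Lib.MP_89bcae_ag.Wt.ifrNF Pool.Agent.Lib.MP_89bcae_ag.Wt.iddNF

open Polynomial IsDedekindDomain

open scoped Classical

namespace Pool.Agent.Lib.MP_89bcae_ag.Zc

open Pool.Agent.Lib.MP_89bcae_ag.Wt Pool.Agent.Lib.MP_89bcae_ag.Wt.Lns Pool.Agent.Lib.MP_89bcae_ag.Bra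
  Pool.Agent.Lib.MP_89bcae_ag.Brt

open Pool.Agent.Lib.MP_89bcae_ag.Zs

/-- `F[X][X]` in the polynomials in two variables. -/
private noncomputable def twoVar (F : Type) [Field F] : F[X][X] →+* MvPolynomial (Fin 2) F :=
  eval₂RingHom ((aeval (MvPolynomial.X 0 : MvPolynomial (Fin 2) F)).toRingHom)
    (MvPolynomial.X 1 : MvPolynomial (Fin 2) F)

private lemma twoVar_injective (F : Type) [Field F] : Function.Injective (twoVar F) := by
  let κ : MvPolynomial (Fin 2) F →+* F[X][X] :=
    MvPolynomial.eval₂Hom (C.comp C) ![C X, X]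
  have h : κ.comp (twoVar F) = RingHom.id _ := by
    refine Polynomial.ringHom_ext' (Polynomial.ringHom_ext' ?_ ?_) ?_
    · ext c
      simp [κ, twoVar]
    · simp [κ, twoVar]
    · simp [κ, twoVar]
  intro p q hpq
  have h1 := congrArg κ hpq
  have h2 := RingHom.congr_fun h
  exact (h2 p).symm.trans (h1.trans (h2 q))

/-- Algebraically independent pairs. -/
theorem eval₂_ne_zero_of_ind {F K : Type} [Field F] [Field K] [Algebra F K] {t x : K}
    (h : AlgebraicIndependent F ![t, x]) {q : F[X][X]}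
    (hq : eval₂ ((aeval t : F[X] →ₐ[F] K) : F[X] →+* K) x q = 0) : q = 0 := by
  have h1 : ((MvPolynomial.aeval ![t, x] : MvPolynomial (Fin 2) F →ₐ[F] K) :
      MvPolynomial (Fin 2) F →+* K).comp (twoVar F) =
      eval₂RingHom ((aeval t : F[X] →ₐ[F] K) : F[X] →+* K) x := by
    refine Polynomial.ringHom_ext' (Polynomial.ringHom_ext' ?_ ?_) ?_
    · ext c
      simp [twoVar]
    · simp [twoVar]
    · simp [twoVar]
  have h2 : MvPolynomial.aeval ![t, x] (twoVar F q) = 0 := (RingHom.congr_fun h1 q).trans hq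
  have h3 : twoVar F q = 0 := h (h2.trans (map_zero _).symm)
  exact twoVar_injective F (h3.trans (map_zero _).symm)

/-- The model of the surface `y ^ ℓ = φ(t, x)` over `L = F(t)`. -/
theorem exists_model_gen {F L Ω K S : Type} [Field F] [Field L] [Algebra F[X] L] [IsFractionRing F[X] L]
    [Field Ω] [Algebra L Ω] [IsAlgClosure L Ω] [Field K] [Algebra F K] [Field S] [Algebra K S]
    [IsAlgClosure K S] {ℓ : ℕ} {φ : F[X][X]} {t x y : K}
    (h : AlgebraicIndependent F ![t, x])
    (hy : y ^ ℓ = eval₂ ((aeval t : F[X] →ₐ[F] K) : F[X] →+* K) x φ) (i : L →+* K)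
    (hi : ∀ p : F[X], i (algebraMap F[X] L p) = aeval t p)
    (hgen : ∀ M : Subfield K, (∀ z : L, i z ∈ M) → x ∈ M → y ∈ M → M = ⊤) {f : L[X]}
    (hf : f = φ.map (algebraMap F[X] L)) :
    ∃ Φ : FunField ℓ (f.map (algebraMap L Ω)) →+* S, IsModel F i x y Φ := by
  have hS : IsAlgClosed S := IsAlgClosure.isAlgClosed K
  have hΩ : Algebra.IsAlgebraic L Ω := IsAlgClosure.isAlgebraic
  have hL' : Algebra.IsAlgebraic F[X] L := IsLocalization.isAlgebraic (R := F[X]) (S := L) (nonZeroDivisors F[X])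
  let _ : Algebra L S := ((algebraMap K S).comp i).toAlgebra
  have hLS : ∀ z : L, algebraMap L S z = algebraMap K S (i z) := fun _ => rfl
  let j : Ω →ₐ[L] S := IsAlgClosed.lift
  have hj : ∀ z : L, j (algebraMap L Ω z) = algebraMap K S (i z) := fun z => j.commutes z
  let _ : Algebra Ω S := j.toRingHom.toAlgebra
  have : IsScalarTower L Ω S := IsScalarTower.of_algebraMap_eq fun z => (j.commutes z).symm
  let _ : Algebra F[X] S := ((algebraMap K S).comp ((aeval t : F[X] →ₐ[F] K) : F[X] →+* K)).toAlgebra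
  have : IsScalarTower F[X] L S := IsScalarTower.of_algebraMap_eq fun p => by
    rw [hLS, hi]
    rfl
  have htr : Function.Injective (eval₂RingHom (j : Ω →+* S) (algebraMap K S x)) := by
    rw [injective_iff_map_eq_zero]
    intro p hp
    by_contra hne
    have h1 : IsAlgebraic Ω (algebraMap K S x) := ⟨p, hne, hp⟩
    have h2 : IsAlgebraic L (algebraMap K S x) := h1.restrictScalars L
    have h3 : IsAlgebraic F[X] (algebraMap K S x) := h2.restrictScalars F[X]
    obtain ⟨q, hq, hq0⟩ := h3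
    refine hq (eval₂_ne_zero_of_ind h ?_)
    refine (algebraMap K S).injective ?_
    rw [Polynomial.hom_eval₂, map_zero]
    exact hq0
  let g1 : RatFunc Ω →+* S := IsFractionRing.lift htr
  have hg1 : ∀ p : Polynomial Ω, g1 (algebraMap (Polynomial Ω) (RatFunc Ω) p) =
      eval₂ (j : Ω →+* S) (algebraMap K S x) p := fun p => IsFractionRing.lift_algebraMap htr p
  have hcurve : eval₂ (j : Ω →+* S) (algebraMap K S x) (f.map (algebraMap L Ω)) = algebraMap K S y ^ ℓ := by
    rw [← map_pow, hy, hf, Polynomial.map_map, Polynomial.eval₂_map, Polynomial.hom_eval₂]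
    congr 1
    refine RingHom.ext fun p => ?_
    exact (hj _).trans (congrArg _ (hi p))
  let Φ : FunField ℓ (f.map (algebraMap L Ω)) →+* S :=
    AdjoinRoot.lift g1 (algebraMap K S y) (by
      rw [eval₂_sub, eval₂_pow, eval₂_X, eval₂_C, hg1, hcurve, sub_self])
  have hΦ : ∀ p : Polynomial Ω, Φ (polyF p) = eval₂ (j : Ω →+* S) (algebraMap K S x) p := by
    intro p
    rw [polyF_eq]
    exact (AdjoinRoot.lift_of _).trans (hg1 p)
  refine ⟨Φ, ⟨fun z => ?_, fun c => ?_, ?_, ?_, hgen⟩⟩
  · change Φ (polyF (C _)) = _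
    rw [hΦ, eval₂_C]
    exact hj _
  · rw [hi, aeval_C]
  · rw [hΦ, eval₂_X]
  · exact AdjoinRoot.lift_root _

section

variable {k F L Ω : Type} [Field k] [Field F] [Algebra k F] [Field L] [Algebra F[X] L]
  [IsFractionRing F[X] L] [Field Ω] [Algebra L Ω]

/-- An automorphism over `k'(t)` maps `L` and `F` to themselves. -/
theorem exists_of_mem_autK' [IsAlgClosure k F] [IsAlgClosure L Ω] (k' : IntermediateField k F) {γ : Ω ≃+* Ω}
    (hγ : γ ∈ AutK k F L Ω k') :
    ∃ (σ : L ≃+* L) (τ : F ≃+* F), (∀ z, γ (algebraMap L Ω z) = algebraMap L Ω (σ z)) ∧ (∀ c ∈ k', τ c = c) ∧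
      ∀ p : F[X], σ (algebraMap F[X] L p) = algebraMap F[X] L (p.map (τ : F →+* F)) := by
  obtain ⟨τ, h1, h2⟩ := exists_of_mem_autK k' hγ
  let σ : L ≃+* L := IsFractionRing.ringEquivOfRingEquiv (mapEquiv τ)
  have hσ : ∀ p : F[X], σ (algebraMap F[X] L p) = algebraMap F[X] L (p.map (τ : F →+* F)) := by
    intro p
    exact IsFractionRing.ringEquivOfRingEquiv_algebraMap _ _
  refine ⟨σ, τ, fun z => ?_, h1, hσ⟩
  obtain ⟨p, q, hq, rfl⟩ := IsFractionRing.div_surjective (A := F[X]) z
  rw [map_div₀, map_div₀, h2, h2, map_div₀, map_div₀, hσ, hσ]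

/-- Each element of `L` is fixed by the automorphisms over `k'(t)` for the large `k'`. -/
theorem fixFamK : FixFam (k := k) L (AutK k F L Ω) := by
  intro z
  obtain ⟨p, q, hq, rfl⟩ := IsFractionRing.div_surjective (A := F[X]) z
  refine ⟨p.support.image p.coeff ∪ q.support.image q.coeff, fun k' hk' γ hγ => ?_⟩
  have key : ∀ r : F[X], (∀ n ∈ r.support, r.coeff n ∈ k') →
      γ (algebraMap L Ω (algebraMap F[X] L r)) = algebraMap L Ω (algebraMap F[X] L r) := by
    intro r hr
    have h1 : r ∈ Polynomial.lifts (algebraMap k' F) := by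
      rw [Polynomial.lifts_iff_coeff_lifts]
      intro n
      by_cases hn : n ∈ r.support
      · exact ⟨⟨r.coeff n, hr n hn⟩, rfl⟩
      · rw [Polynomial.notMem_support_iff.1 hn]
        exact ⟨0, map_zero _⟩
    obtain ⟨r', hr'⟩ := (Polynomial.mem_lifts _).1 h1
    have h2 : γ (base k' F L Ω r') = base k' F L Ω r' := hγ r'
    have h3 : base k' F L Ω r' = algebraMap L Ω (algebraMap F[X] L r) := by
      rw [← hr']
      rfl
    rwa [h3] at h2
  rw [map_div₀, map_div₀,
    key p fun n hn => hk' _ (Finset.mem_union_left _ (Finset.mem_image_of_mem _ hn)),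
    key q fun n hn => hk' _ (Finset.mem_union_right _ (Finset.mem_image_of_mem _ hn))]

end

end Pool.Agent.Lib.MP_89bcae_ag.Zc
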