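import Mathlib
import Pool.Agent.Lib.MP_89bcae_ag.Z.Ctx

/-!
# The local fields at the places of `F(t)`
-/

attribute [local instance 100000] Pool.Agent.Lib.MP_89bcae_ag.Brt.tffFields
attribute [local instance 100000] Pool.Agent.Lib.MP_89bcae_ag.Wt.ifrNF Pool.Agent.Lib.MP_89bcae_ag.Wt.iddNF

open Polynomial IsDedekindDomain

open scoped Classical

namespace Pool.Agent.Lib.MP_89bcae_ag.Zc

open Pool.Agent.Lib.MP_89bcae_ag.Wt Pool.Agent.Lib.MP_89bcae_ag.Wt.Lns Pool.Agent.Lib.MP_89bcae_ag.Bra
  Pool.Agent.Lib.MP_89bcae_ag.Brt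

open Pool.Agent.Lib.MP_89bcae_ag.Sup (LocCtx)

open Pool.Agent.Lib.MP_89bcae_ag.Zs

section

variable {F L K M : Type} [Field F] [Field L] [Algebra F[X] L] [Field K] [Field M] [Algebra K M]
  {i : L →+* K} {v : AbsoluteValue M ℝ}

/-- The homomorphism of `L` in `M`. -/
private abbrev im (i : L →+* K) (M : Type) [Field M] [Algebra K M] : L →+* M := (algebraMap K M).comp i

/-- The values of the elements of `F(t)`. -/
private lemma val_lin [IsAlgClosed F] [IsFractionRing F[X] L] {g : ℝ}
    (h1 : ∀ a : F, a ≠ 0 → v (im i M (algebraMap F[X] L (C a))) = 1)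
    (h2 : ∀ a : F, ∃ n : ℤ, v (im i M (algebraMap F[X] L (X - C a))) = g ^ n) (z : L) (hz : z ≠ 0) (hg : g ≠ 0) :
    ∃ n : ℤ, v (im i M z) = g ^ n := by
  have h3 : ∀ p : F[X], p ≠ 0 → ∃ n : ℤ, v (im i M (algebraMap F[X] L p)) = g ^ n := by
    intro p hp
    rw [(IsAlgClosed.splits p).eq_prod_roots]
    have h4 : ∀ S : Multiset F, ∃ n : ℤ,
        v (im i M (algebraMap F[X] L (S.map fun a => X - C a).prod)) = g ^ n := by
      intro S
      induction S using Multiset.induction_on with
      | empty => exact ⟨0, by simp⟩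
      | cons a S ih =>
        obtain ⟨n, hn⟩ := ih
        obtain ⟨m, hm⟩ := h2 a
        refine ⟨m + n, ?_⟩
        rw [Multiset.map_cons, Multiset.prod_cons, map_mul, map_mul, v.map_mul, hn, hm, zpow_add₀ hg]
    obtain ⟨n, hn⟩ := h4 p.roots
    refine ⟨n, ?_⟩
    rw [map_mul, map_mul, v.map_mul, hn, h1 _ (leadingCoeff_ne_zero.2 hp), one_mul]
  obtain ⟨p, q, hq, rfl⟩ := IsFractionRing.div_surjective (A := F[X]) z
  have hq0 : q ≠ 0 := nonZeroDivisors.ne_zero hq
  have hp0 : p ≠ 0 := by
    rintro rfl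
    rw [map_zero, zero_div] at hz
    exact hz rfl
  obtain ⟨n, hn⟩ := h3 p hp0
  obtain ⟨m, hm⟩ := h3 q hq0
  refine ⟨n - m, ?_⟩
  rw [map_div₀, map_div₀, hn, hm, zpow_sub₀ hg]

private lemma pc_disc {g : ℝ} (hv : IsPlace F i v) (hg : ∀ z : L, z ≠ 0 → ∃ n : ℤ, v (im i M z) = g ^ n)
    (x : K) (hx : x ≠ 0) : ∃ n : ℤ, v (algebraMap K M x) = g ^ n := by
  obtain ⟨τ, h1, -, h3⟩ := hv.disc
  obtain ⟨n, hn⟩ := h3 x hx
  obtain ⟨m, hm⟩ := hg τ h1
  refine ⟨m * n, ?_⟩
  rw [hn, zpow_mul, ← hm]
  rfl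

/-- The local field at a finite place. -/
theorem locF_fin [IsAlgClosed F] [IsFractionRing F[X] L] (hv : IsPlace F i v)
    (h : v (algebraMap K M (i (algebraMap F[X] L X))) ≤ 1) :
    ∃ s : F, ∀ [Algebra F[X] K] [Algebra F M], (∀ p, algebraMap F[X] K p = i (algebraMap F[X] L p)) →
      (∀ a : F, algebraMap F M a = algebraMap K M (i (algebraMap F[X] L (C a)))) → LocF F K s v := by
  obtain ⟨s, hs⟩ := hv.residue _ h
  refine ⟨s, ?_⟩
  intro _ _ hK hM
  have hX : ∀ a : F, im i M (algebraMap F[X] L (X - C a)) =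
      algebraMap K M (i (algebraMap F[X] L X)) - algebraMap K M (i (algebraMap F[X] L (C a))) := by
    intro a
    simp only [map_sub]
    rfl
  have hne : algebraMap K M (i (algebraMap F[X] L X)) - algebraMap K M (i (algebraMap F[X] L (C s))) ≠ 0 := by
    rw [← hX, _root_.map_ne_zero, Ne, IsFractionRing.to_map_eq_zero_iff]
    exact X_sub_C_ne_zero s
  have hg0 : v (algebraMap K M (i (algebraMap F[X] L X)) - algebraMap K M (i (algebraMap F[X] L (C s)))) ≠ 0 :=
    (v.ne_zero_iff).2 hne
  have hval := val_lin (i := i) (v := v) hv.const (fun a => by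
    rw [hX]
    by_cases ha : a = s
    · subst ha
      exact ⟨1, (zpow_one _).symm⟩
    · refine ⟨0, ?_⟩
      rw [zpow_zero]
      have h1 : algebraMap K M (i (algebraMap F[X] L X)) - algebraMap K M (i (algebraMap F[X] L (C a))) =
          (algebraMap K M (i (algebraMap F[X] L X)) - algebraMap K M (i (algebraMap F[X] L (C s)))) +
            algebraMap K M (i (algebraMap F[X] L (C (s - a)))) := by
        simp only [map_sub]
        ring
      have h2 := hv.const (s - a) (sub_ne_zero.2 (Ne.symm ha))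
      rw [h1]
      apply le_antisymm
      · refine (hv.nonarch _ _).trans (max_le hs.le h2.le)
      · have h3 := hv.nonarch ((algebraMap K M (i (algebraMap F[X] L X)) - algebraMap K M (i (algebraMap F[X] L (C s)))) +
            algebraMap K M (i (algebraMap F[X] L (C (s - a)))))
            (-(algebraMap K M (i (algebraMap F[X] L X)) - algebraMap K M (i (algebraMap F[X] L (C s)))))
        rw [v.map_neg, show ∀ x y : M, x + y + -x = y from fun x y => by ring, h2] at h3
        rcases le_max_iff.1 h3 with h4 | h4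
        · exact h4
        · exact absurd hs (not_lt.2 h4))
  have hXK : algebraMap K M (algebraMap F[X] K X) = algebraMap K M (i (algebraMap F[X] L X)) := by rw [hK]
  refine ⟨fun c => by rw [hM, hK], ⟨inferInstance, hv.nonarch, fun c hc => by rw [hM]; exact hv.const c hc, ?_, ?_,
    fun x hx => ?_⟩, fun x hx => ?_, hv.inv⟩
  · rw [hXK, hM]
    exact hs
  · rw [hXK, hM]
    exact sub_ne_zero.1 hne
  · obtain ⟨a, ha⟩ := hv.residue x hx
    exact ⟨a, by rw [hM]; exact ha⟩
  · rw [hXK, hM]
    exact pc_disc hv (fun z hz => hval z hz hg0) x hx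

/-- The local field at infinity. -/
theorem locF_inf [IsAlgClosed F] [IsFractionRing F[X] L] (hv : IsPlace F i v)
    (h : 1 < v (algebraMap K M (i (algebraMap F[X] L X)))) [Algebra F[X] K] [Algebra F M]
    (hK : ∀ a : F, algebraMap F[X] K (C a) = i (algebraMap F[X] L (C a)))
    (hKX : algebraMap F[X] K X = i (algebraMap F[X] L X)⁻¹)
    (hM : ∀ a : F, algebraMap F M a = algebraMap K M (i (algebraMap F[X] L (C a)))) : LocF F K 0 v := by
  set t : M := algebraMap K M (i (algebraMap F[X] L X)) with ht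
  have hvt : v t ≠ 0 := (zero_lt_one.trans h).ne'
  have hg0 : v t⁻¹ ≠ 0 := by
    rw [map_inv₀]
    exact inv_ne_zero hvt
  have hle : ∀ a : F, v (algebraMap K M (i (algebraMap F[X] L (C a)))) ≤ 1 := by
    intro a
    by_cases ha : a = 0
    · subst ha
      simp
    · exact (hv.const a ha).le
  have hval := val_lin (i := i) (v := v) (g := v t⁻¹) hv.const (fun a => by
    refine ⟨-1, ?_⟩
    have h1 : im i M (algebraMap F[X] L (X - C a)) = t + -algebraMap K M (i (algebraMap F[X] L (C a))) := by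
      simp only [map_sub]
      exact sub_eq_add_neg _ _
    rw [h1, map_inv₀, zpow_neg, zpow_one, inv_inv]
    apply le_antisymm
    · refine (hv.nonarch _ _).trans (max_le le_rfl ?_)
      rw [v.map_neg]
      exact (hle a).trans h.le
    · have h3 := hv.nonarch (t + -algebraMap K M (i (algebraMap F[X] L (C a))))
        (algebraMap K M (i (algebraMap F[X] L (C a))))
      rw [show ∀ x y : M, x + -y + y = x from fun x y => by ring] at h3
      rcases le_max_iff.1 h3 with h4 | h4
      · exact h4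
      · exact absurd (h4.trans (hle a)) (not_le.2 h))
  have hXK : algebraMap K M (algebraMap F[X] K X) = t⁻¹ := by
    rw [hKX, map_inv₀, map_inv₀]
  have hM0 : algebraMap F M 0 = 0 := by
    rw [hM, map_zero, map_zero, map_zero, map_zero]
  refine ⟨fun c => by rw [hM, hK], ⟨inferInstance, hv.nonarch, fun c hc => by rw [hM]; exact hv.const c hc, ?_, ?_,
    fun x hx => ?_⟩, fun x hx => ?_, hv.inv⟩
  · rw [hXK, hM0, sub_zero, map_inv₀]
    exact inv_lt_one_of_one_lt₀ h
  · rw [hXK, hM0]
    exact inv_ne_zero ((v.ne_zero_iff).1 hvt)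
  · obtain ⟨a, ha⟩ := hv.residue x hx
    exact ⟨a, by rw [hM]; exact ha⟩
  · rw [hXK, hM0, sub_zero]
    exact pc_disc hv (fun z hz => hval z hz hg0) x hx

end

end Pool.Agent.Lib.MP_89bcae_ag.Zc
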