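import Mathlib
import Pool.Agent.Lib.MP_89bcae_ag.Tk.K034
import Pool.Agent.Lib.MP_89bcae_ag.Z.Defs

/-!
# The roots of a polynomial with smooth curve over a local field

`φ` is a polynomial in `x` with coefficients in `F[t]`.
-/

open Polynomial IsDedekindDomain IsLocalRing

open scoped Classical Polynomial.Bivariate

namespace Pool.Agent.Lib.MP_89bcae_ag.Zc

open Pool.Agent.Lib.MP_89bcae_ag.Wt Pool.Agent.Lib.MP_89bcae_ag.Wt.Lns Pool.Agent.Lib.MP_89bcae_ag.Bra
  Pool.Agent.Lib.MP_89bcae_ag.Brt

open Pool.Agent.Lib.MP_89bcae_ag.Zs (IsSmoothAt)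

section

variable {F K E : Type} [Field F] [IsAlgClosed F] [Field K] [Algebra F[X] K] [Field E]
  [Algebra K E] [Algebra F E] [IsAlgClosure K E] {ℓ : ℕ} {s : F} {v : AbsoluteValue E ℝ} {ζ : F}

/-- The homomorphism of `F[X]` in `E`. -/
noncomputable def io (F K E : Type) [Field F] [Field K] [Algebra F[X] K] [Field E] [Algebra K E] : F[X] →+* E :=
  (algebraMap K E).comp (algebraMap F[X] K)

section Val

variable {v : AbsoluteValue E ℝ}

private lemma oadd (hna : ∀ x y, v (x + y) ≤ max (v x) (v y)) {x y : E} (hx : v x < 1)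
    (hy : v y < 1) : v (x + y) < 1 :=
  lt_of_le_of_lt (hna x y) (max_lt hx hy)

private lemma omul (hna : ∀ x y, v (x + y) ≤ max (v x) (v y)) {a a' b b' : E}
    (h : v (a - b) < 1) (h' : v (a' - b') < 1) (ha' : v a' ≤ 1) (hb : v b ≤ 1) :
    v (a * a' - b * b') < 1 := by
  have h1 : a * a' - b * b' = (a - b) * a' + b * (a' - b') := by ring
  rw [h1]
  apply oadd hna
  · rw [v.map_mul]
    exact lt_of_le_of_lt (mul_le_of_le_one_right (v.nonneg _) ha') h
  · rw [v.map_mul]
    exact lt_of_le_of_lt (mul_le_of_le_one_left (v.nonneg _) hb) h'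

private lemma ole (hna : ∀ x y, v (x + y) ≤ max (v x) (v y)) {a b : E}
    (h : v (a - b) < 1) (hb : v b ≤ 1) : v a ≤ 1 := by
  have h1 := hna (a - b) b
  rw [sub_add_cancel] at h1
  exact h1.trans (max_le h.le hb)

private lemma oeq (hna : ∀ x y, v (x + y) ≤ max (v x) (v y)) {a b : E}
    (h : v (a - b) < 1) (hb : v b = 1) : v a = 1 := by
  apply le_antisymm (ole hna h hb.le)
  have h3 := hna a (-(a - b))
  rw [v.map_neg] at h3
  have h4 : a + -(a - b) = b := by ring
  rw [h4, hb] at h3
  rcases le_max_iff.1 h3 with h5 | h5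
  · exact h5
  · exact absurd h (not_lt.2 h5)

omit [IsAlgClosed F] in
private lemma oc (hc : ∀ c : F, c ≠ 0 → v (algebraMap F E c) = 1) (c : F) :
    v (algebraMap F E c) ≤ 1 := by
  by_cases h : c = 0
  · rw [h, map_zero, v.map_zero]
    exact zero_le_one
  · exact (hc c h).le

omit [IsAlgClosed F] in
private lemma o0 (hc : ∀ c : F, c ≠ 0 → v (algebraMap F E c) = 1) {c : F}
    (h : v (algebraMap F E c) < 1) : c = 0 := by
  by_contra h1
  rw [hc c h1] at h
  exact lt_irrefl _ h

omit [IsAlgClosed F] [IsAlgClosure K E] in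
/-- The value at `s` of a polynomial is its residue. -/
theorem io_sub (hL : LocF F K s v) (p : F[X]) : v (io F K E p - algebraMap F E (p.eval s)) < 1 := by
  have hna := hL.ctx.nonarch
  have hc := hL.ctx.const
  induction p using Polynomial.induction_on with
  | C a =>
    have h1 : io F K E (C a) = algebraMap F E a := (hL.compat a).symm
    rw [h1, eval_C, sub_self, map_zero]
    exact zero_lt_one
  | add p q hp hq =>
    have h1 : io F K E (p + q) - algebraMap F E ((p + q).eval s) =
        (io F K E p - algebraMap F E (p.eval s)) + (io F K E q - algebraMap F E (q.eval s)) := by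
      rw [map_add, eval_add, map_add]
      ring
    rw [h1]
    exact oadd hna hp hq
  | monomial n a ih =>
    have hX : v (io F K E X - algebraMap F E s) < 1 := hL.ctx.lt_one
    have h1 : io F K E (C a * X ^ (n + 1)) - algebraMap F E ((C a * X ^ (n + 1)).eval s) =
        io F K E (C a * X ^ n) * io F K E X - algebraMap F E ((C a * X ^ n).eval s) * algebraMap F E s := by
      simp only [map_mul, map_pow, eval_mul, eval_C, eval_pow, eval_X]
      ring
    rw [h1]
    exact omul hna ih hX (ole hna hX (oc hc _)) (oc hc _)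

omit [IsAlgClosed F] [IsAlgClosure K E] in
/-- The value at `θ` of a polynomial in two variables has the residue given by the point. -/
theorem ev_sub (hL : LocF F K s v) {θ : E} {r : F} (hr : v (θ - algebraMap F E r) < 1) (h : F[X][Y]) :
    v ((h.map (io F K E)).eval θ - algebraMap F E (h.evalEval s r)) < 1 := by
  have hna := hL.ctx.nonarch
  have hc := hL.ctx.const
  have hθ : v θ ≤ 1 := ole hna hr (oc hc r)
  induction h using Polynomial.induction_on with
  | C a =>
    rw [map_C, eval_C, evalEval_C]
    exact io_sub hL a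
  | add p q hp hq =>
    have h1 : ((p + q).map (io F K E)).eval θ - algebraMap F E ((p + q).evalEval s r) =
        ((p.map (io F K E)).eval θ - algebraMap F E (p.evalEval s r)) +
          ((q.map (io F K E)).eval θ - algebraMap F E (q.evalEval s r)) := by
      rw [Polynomial.map_add, eval_add, evalEval_add, map_add]
      ring
    rw [h1]
    exact oadd hna hp hq
  | monomial n a ih =>
    have h1 : ((C a * X ^ (n + 1)).map (io F K E)).eval θ - algebraMap F E ((C a * X ^ (n + 1)).evalEval s r) =
        ((C a * X ^ n).map (io F K E)).eval θ * θ -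
          algebraMap F E ((C a * X ^ n).evalEval s r) * algebraMap F E r := by
      simp only [Polynomial.map_mul, map_C, Polynomial.map_pow, map_X, eval_mul, eval_C, eval_pow, eval_X, map_mul,
        map_pow, evalEval_mul, evalEval_pow, evalEval_X, evalEval_C]
      ring
    rw [h1]
    exact omul hna ih hr hθ (oc hc _)

omit [IsAlgClosed F] in
private lemma oprod (hna : ∀ x y, v (x + y) ≤ max (v x) (v y))
    (hc : ∀ c : F, c ≠ 0 → v (algebraMap F E c) = 1) (res : E → F) (c : F) (S : Multiset E)
    (hS : ∀ θ ∈ S, v (θ - algebraMap F E (res θ)) < 1) :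
    v ((S.map fun θ => algebraMap F E c - θ).prod - algebraMap F E ((S.map fun θ => c - res θ).prod)) < 1 := by
  induction S using Multiset.induction_on with
  | empty => simp
  | cons a S ih =>
    rw [Multiset.map_cons, Multiset.prod_cons, Multiset.map_cons, Multiset.prod_cons, map_mul]
    have h1 := ih fun θ hθ => hS θ (Multiset.mem_cons_of_mem hθ)
    have h2 : v ((algebraMap F E c - a) - algebraMap F E (c - res a)) < 1 := by
      have h3 : (algebraMap F E c - a) - algebraMap F E (c - res a) = -(a - algebraMap F E (res a)) := by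
        rw [map_sub]
        ring
      rw [h3, v.map_neg]
      exact hS a (Multiset.mem_cons_self a S)
    exact omul hna h2 h1 (ole hna h1 (oc hc _)) (oc hc _)

end Val

variable {φ : F[X][Y]} {p : E[X]} {res : E → F} {θ : E}

/-- The number of the roots with residue `r` is the multiplicity of the root `r` of `φ(s, x)`. -/
theorem card_rtsOver (hL : LocF F K s v) (hφ : φ.Monic) (hp : p = φ.map (io F K E)) (hsep : p.Separable)
    (hres : ∀ θ, p.eval θ = 0 → v (θ - algebraMap F E (res θ)) < 1) (r : F) :
    (rtsOver p res r).card = (φ.map (evalRingHom s)).rootMultiplicity r := by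
  have hE : IsAlgClosed E := IsAlgClosure.isAlgClosed K
  have hna := hL.ctx.nonarch
  have hc := hL.ctx.const
  have hmon : p.Monic := by
    rw [hp]
    exact hφ.map _
  have hq : φ.map (evalRingHom s) = ((p.roots.map res).map fun a => X - C a).prod := by
    have : Infinite F := IsAlgClosed.instInfinite
    apply Polynomial.funext
    intro c
    have h1 := oprod hna hc res c p.roots fun θ' hθ' => hres θ' (isRoot_of_mem_roots hθ')
    rw [← (IsAlgClosed.splits p).eval_eq_prod_roots_of_monic hmon] at h1
    have h2 := ev_sub hL (θ := algebraMap F E c) (r := c) (by rw [sub_self, map_zero]; exact zero_lt_one) φ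
    rw [← hp] at h2
    have h3 : v (-(p.eval (algebraMap F E c) - algebraMap F E (φ.evalEval s c))) < 1 := by
      rw [v.map_neg]
      exact h2
    have h4 := oadd hna h1 h3
    have h5 : p.eval (algebraMap F E c) - algebraMap F E ((p.roots.map fun θ => c - res θ).prod) +
        -(p.eval (algebraMap F E c) - algebraMap F E (φ.evalEval s c)) =
        algebraMap F E (φ.evalEval s c - (p.roots.map fun θ => c - res θ).prod) := by
      rw [map_sub]
      ring
    rw [h5] at h4
    have h6 : (φ.map (evalRingHom s)).eval c = φ.evalEval s c := map_evalRingHom_eval s c φ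
    rw [h6, sub_eq_zero.1 (o0 hc h4), eval_multiset_prod, Multiset.map_map, Multiset.map_map]
    congr 1
    apply Multiset.map_congr rfl
    intro x _
    simp
  rw [hq, ← count_roots, roots_multiset_prod_X_sub_C, Multiset.count_map]
  unfold rtsOver
  rw [← Multiset.toFinset_filter, Multiset.toFinset_card_of_nodup ((nodup_roots hsep).filter _)]
  congr 1
  apply Multiset.filter_congr
  intro x _
  exact eq_comm

omit [IsAlgClosed F] in
/-- Division by `t - s`. -/
theorem exists_quot (φ : F[X][Y]) (s : F) : ∃ H : F[X][Y],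
    φ = (φ.map (evalRingHom s)).map C + C (X - C s) * H ∧
      ∀ r, H.evalEval s r = (derivative (φ.eval (C r))).eval s := by
  have h1 : C (X - C s) ∣ φ - (φ.map (evalRingHom s)).map C := by
    rw [C_dvd_iff_dvd_coeff]
    intro i
    rw [coeff_sub, coeff_map, coeff_map, coe_evalRingHom]
    exact X_sub_C_dvd_sub_C_eval
  obtain ⟨H, hH⟩ := h1
  have h2 : φ = (φ.map (evalRingHom s)).map C + C (X - C s) * H := by
    rw [← hH]
    ring
  refine ⟨H, h2, fun r => ?_⟩
  have h3 : φ.eval (C r) = C ((φ.map (evalRingHom s)).eval r) + (X - C s) * H.eval (C r) := by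
    conv_lhs => rw [h2]
    rw [eval_add, eval_mul, eval_C, eval_map, eval₂_at_apply]
  rw [h3, derivative_add, derivative_C, zero_add, derivative_mul, derivative_X_sub_C, one_mul, eval_add, eval_mul,
    eval_sub, eval_X, eval_C, sub_self, zero_mul, add_zero]

omit [IsAlgClosed F] [IsAlgClosure K E] in
/-- The value of `θ - r`, when `t` is not a uniformizing parameter. -/
theorem val_pow (hL : LocF F K s v) (hφ : φ.Monic) (hp : p = φ.map (io F K E)) (hθ : p.eval θ = 0) {r : F}
    (hr : v (θ - algebraMap F E r) < 1) (hd : (derivative (φ.eval (C r))).eval s ≠ 0) :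
    v (θ - algebraMap F E r) ^ (φ.map (evalRingHom s)).rootMultiplicity r =
      v (algebraMap K E (algebraMap F[X] K X) - algebraMap F E s) := by
  have hna := hL.ctx.nonarch
  have hc := hL.ctx.const
  obtain ⟨H, hH, hH'⟩ := exists_quot φ s
  have hs0 : φ.map (evalRingHom s) ≠ 0 := (hφ.map _).ne_zero
  obtain ⟨q, hq, hqr⟩ := exists_eq_pow_rootMultiplicity_mul_and_not_dvd _ hs0 r
  rw [dvd_iff_isRoot, IsRoot.def] at hqr
  have hmc : ∀ g : F[X], ((g.map C).map (io F K E)).eval θ = (g.map (algebraMap F E)).eval θ := by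
    intro g
    rw [Polynomial.map_map]
    congr 2
    ext c
    exact (hL.compat c).symm
  have h1 : (g : F[X]) → v ((g.map (algebraMap F E)).eval θ - algebraMap F E (g.eval r)) < 1 := by
    intro g
    have h2 := ev_sub hL hr (g.map C)
    rw [hmc, evalEval_map_C] at h2
    exact h2
  have hvq : v ((q.map (algebraMap F E)).eval θ) = 1 := oeq hna (h1 q) (hc _ hqr)
  have hvH : v ((H.map (io F K E)).eval θ) = 1 := by
    refine oeq hna (ev_sub hL hr H) (hc _ ?_)
    rw [hH' r]
    exact hd
  have h3 : (((φ.map (evalRingHom s)).map (algebraMap F E)).eval θ) +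
      (algebraMap K E (algebraMap F[X] K X) - algebraMap F E s) * (H.map (io F K E)).eval θ = 0 := by
    rw [← hθ, hp]
    conv_rhs => rw [hH]
    rw [Polynomial.map_add, Polynomial.map_mul, eval_add, eval_mul, hmc, map_C, eval_C]
    congr 2
    rw [map_sub]
    congr 1
    exact hL.compat s
  have h4 : v (((φ.map (evalRingHom s)).map (algebraMap F E)).eval θ) =
      v (algebraMap K E (algebraMap F[X] K X) - algebraMap F E s) := by
    rw [eq_neg_of_add_eq_zero_left h3, v.map_neg, v.map_mul, hvH, mul_one]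
  rw [← h4]
  conv_rhs => rw [hq]
  rw [Polynomial.map_mul, Polynomial.map_pow, Polynomial.map_sub, map_X, map_C, eval_mul, eval_pow, eval_sub, eval_X,
    eval_C, v.map_mul, map_pow, hvq, mul_one]

omit [IsAlgClosed F] [IsAlgClosure K E] in
/-- The residues of the roots are the roots of `φ(s, x)`. -/
theorem evalEval_res (hL : LocF F K s v) (hp : p = φ.map (io F K E)) (hθ : p.eval θ = 0) {r : F}
    (hr : v (θ - algebraMap F E r) < 1) : φ.evalEval s r = 0 := by
  have h1 := ev_sub hL hr φ
  rw [← hp, hθ, zero_sub, v.map_neg] at h1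
  exact o0 hL.ctx.const h1

/-- The two kinds of points of a smooth curve. -/
theorem card_or_val (hL : LocF F K s v) (hφ : φ.Monic) (hsm : IsSmoothAt φ s) (hp : p = φ.map (io F K E))
    (hsep : p.Separable) (hres : ∀ θ, p.eval θ = 0 → v (θ - algebraMap F E (res θ)) < 1) (hθ : p.eval θ = 0) :
    (rtsOver p res (res θ)).card = 1 ∨
      v (θ - algebraMap F E (res θ)) ^ (rtsOver p res (res θ)).card =
        v (algebraMap K E (algebraMap F[X] K X) - algebraMap F E s) := by
  rw [card_rtsOver hL hφ hp hsep hres]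
  have h2 : (φ.map (evalRingHom s)).eval (res θ) = 0 := by
    have h3 := evalEval_res hL hp hθ (hres θ hθ)
    have h6 : (φ.map (evalRingHom s)).eval (res θ) = φ.evalEval s (res θ) := map_evalRingHom_eval s (res θ) φ
    rw [h6, h3]
  rcases hsm (res θ) h2 with h1 | h1
  · left
    have hs0 : φ.map (evalRingHom s) ≠ 0 := (hφ.map _).ne_zero
    have h4 : 0 < (φ.map (evalRingHom s)).rootMultiplicity (res θ) := (rootMultiplicity_pos hs0).2 h2
    have h5 : ¬ 1 < (φ.map (evalRingHom s)).rootMultiplicity (res θ) := by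
      intro h6
      have h7 := (one_lt_rootMultiplicity_iff_isRoot hs0).1 h6
      exact h1 h7.2
    omega
  · right
    exact val_pow hL hφ hp hθ (hres θ hθ) h1

section Orbit

variable {p₀ : K[X]} {p : E[X]} {res : E → F} {θ : E}

omit [IsAlgClosed F] [Algebra F[X] K] [Algebra F E] [IsAlgClosure K E] in
private lemma ob_aeval (hp : p = p₀.map (algebraMap K E)) (z : E) : aeval z p₀ = p.eval z := by
  rw [hp, eval_map_algebraMap]

omit [IsAlgClosed F] [Algebra F[X] K] [Algebra F E] [IsAlgClosure K E] in
private lemma ob_dvd (hp : p = p₀.map (algebraMap K E)) (hθ : p.eval θ = 0) :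
    (minpoly K θ).map (algebraMap K E) ∣ p := by
  rw [hp]
  apply Polynomial.map_dvd
  apply minpoly.dvd
  rw [ob_aeval hp, hθ]

omit [IsAlgClosed F] [Algebra F[X] K] [Algebra F E] in
private lemma ob_int (θ : E) : IsIntegral K θ :=
  ((IsAlgClosure.isAlgebraic (R := K) (K := E)).isAlgebraic θ).isIntegral

omit [IsAlgClosed F] [Algebra F[X] K] [Algebra F E] in
private lemma ob_conj {θ' : E} (h : θ' ∈ ((minpoly K θ).map (algebraMap K E)).roots) :
    ∃ σ : E ≃ₐ[K] E, σ θ = θ' := by
  have : Normal K E := IsAlgClosure.normal K E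
  have h1 : aeval θ' (minpoly K θ) = 0 := by
    rw [← eval_map_algebraMap]
    exact (mem_roots'.1 h).2
  exact minpoly.exists_algEquiv_of_root' ((ob_int θ).isAlgebraic) h1

omit [IsAlgClosed F] in
private lemma ob_sub (hL : LocF F K s v) (hp : p = p₀.map (algebraMap K E)) (hsep : p.Separable)
    (hres : ∀ θ, p.eval θ = 0 → v (θ - algebraMap F E (res θ)) < 1) (hθ : p.eval θ = 0) :
    ((minpoly K θ).map (algebraMap K E)).roots.toFinset ⊆ rtsOver p res (res θ) := by
  intro θ' h
  rw [Multiset.mem_toFinset] at h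
  obtain ⟨σ, hσ⟩ := ob_conj h
  have h1 : p.eval θ' = 0 := by
    obtain ⟨q, hq⟩ := ob_dvd hp hθ
    rw [hq, eval_mul, (mem_roots'.1 h).2, zero_mul]
  rw [rtsOver, Finset.mem_filter, Multiset.mem_toFinset, mem_roots']
  refine ⟨⟨hsep.ne_zero, h1⟩, ?_⟩
  rw [← hσ] at h1 ⊢
  have : IsAlgClosed F := hL.ctx.alg
  exact res_conj hL hres σ hθ h1

omit [IsAlgClosed F] [Algebra F[X] K] [Algebra F E] in
private lemma ob_card (hp : p = p₀.map (algebraMap K E)) (hsep : p.Separable) (hθ : p.eval θ = 0) :
    ((minpoly K θ).map (algebraMap K E)).roots.toFinset.card = (minpoly K θ).natDegree := by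
  have : IsAlgClosed E := IsAlgClosure.isAlgClosed K
  have h1 : ((minpoly K θ).map (algebraMap K E)).Separable :=
    hsep.of_dvd (ob_dvd hp hθ)
  rw [Multiset.toFinset_card_of_nodup (nodup_roots h1),
    ← (IsAlgClosed.splits _).natDegree_eq_card_roots, natDegree_map]

omit [IsAlgClosed F] [IsAlgClosure K E] in
private lemma ob_deg (hL : LocF F K s v) (θ : E) (r : F) :
    (minpoly K (θ - algebraMap F E r)).natDegree = (minpoly K θ).natDegree := by
  rw [hL.compat, minpoly.sub_algebraMap, natDegree_comp, natDegree_X_add_C, mul_one]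

omit [IsAlgClosed F] [IsAlgClosure K E] in
private lemma ob_ne (hL : LocF F K s v) {r : F} {e : ℕ} (he : 0 < e)
    (hv : v (θ - algebraMap F E r) ^ e = v (algebraMap K E (algebraMap F[X] K X) - algebraMap F E s)) :
    θ - algebraMap F E r ≠ 0 := by
  intro h0
  rw [h0, map_zero, zero_pow he.ne'] at hv
  exact hL.ctx.ne (sub_eq_zero.1 ((v.eq_zero).1 hv.symm))

omit [IsAlgClosed F] [Algebra F[X] K] [Algebra K E] [Algebra F E] [IsAlgClosure K E] [Field F] in
private lemma ob_pos (hsep : p.Separable) (hθ : p.eval θ = 0) :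
    0 < (rtsOver p res (res θ)).card := by
  apply Finset.card_pos.2
  refine ⟨θ, ?_⟩
  rw [rtsOver, Finset.mem_filter, Multiset.mem_toFinset, mem_roots']
  exact ⟨⟨hsep.ne_zero, hθ⟩, rfl⟩

omit [IsAlgClosed F] [IsAlgClosure K E] in
private lemma ob_hK (hL : LocF F K s v)
    (hv : v (θ - algebraMap F E (res θ)) ^ (rtsOver p res (res θ)).card =
      v (algebraMap K E (algebraMap F[X] K X) - algebraMap F E s))
    (x : K) (hx : x ≠ 0) : ∃ i : ℤ, v (algebraMap K E x) =
      (v (θ - algebraMap F E (res θ)) ^ (rtsOver p res (res θ)).card) ^ i := by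
  obtain ⟨i, hi⟩ := hL.disc x hx
  exact ⟨i, by rw [hi, hv]⟩

omit [IsAlgClosed F] in
private lemma ob_hdeg (hL : LocF F K s v) (hp : p = p₀.map (algebraMap K E)) (hsep : p.Separable)
    (hres : ∀ θ, p.eval θ = 0 → v (θ - algebraMap F E (res θ)) < 1) (hθ : p.eval θ = 0) :
    (minpoly K (θ - algebraMap F E (res θ))).natDegree ≤ (rtsOver p res (res θ)).card := by
  rw [ob_deg hL, ← ob_card hp hsep hθ]
  exact Finset.card_le_card (ob_sub hL hp hsep hres hθ)

omit [IsAlgClosed F] in
/-- The field generated by a root, if `θ - res θ` has the right value. -/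
theorem locF_adj (hL : LocF F K s v) (hp : p = p₀.map (algebraMap K E)) (hsep : p.Separable)
    (hres : ∀ θ, p.eval θ = 0 → v (θ - algebraMap F E (res θ)) < 1) (hθ : p.eval θ = 0)
    (hv : v (θ - algebraMap F E (res θ)) ^ (rtsOver p res (res θ)).card =
      v (algebraMap K E (algebraMap F[X] K X) - algebraMap F E s)) :
    @LocF F (IntermediateField.adjoin K {θ}) E _ _ _ (algAdj F K θ) _ _ (res θ) v := by
  have : IsAlgClosed E := IsAlgClosure.isAlgClosed K
  have hpos : 0 < (rtsOver p res (res θ)).card := ob_pos hsep hθ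
  have hne : θ - algebraMap F E (res θ) ≠ 0 := ob_ne hL hpos hv
  let _ := algAdj F K θ
  have hX : algebraMap (IntermediateField.adjoin K {θ}) E
      (algebraMap F[X] (IntermediateField.adjoin K {θ}) X) = θ := by
    change algebraMap (IntermediateField.adjoin K {θ}) E (eval₂ _ _ X) = θ
    rw [eval₂_X]
    rfl
  refine ⟨?_, ⟨hL.ctx.alg, hL.ctx.nonarch, hL.ctx.const, ?_, ?_, hL.ctx.residue⟩, ?_, ?_⟩
  · intro c
    change algebraMap F E c = algebraMap (IntermediateField.adjoin K {θ}) E (eval₂ _ _ (C c))
    rw [eval₂_C, hL.compat]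
    rfl
  · rw [hX]
    exact hres θ hθ
  · rw [hX]
    exact sub_ne_zero.1 hne
  · intro x hx
    rw [hX]
    refine disc_adjoin (K := K) hL.ctx.nonarch hne (hres θ hθ) hpos (ob_hK hL hv) (ob_int _)
      (ob_hdeg hL hp hsep hres hθ) _ ?_ ?_
    · have h1 : IntermediateField.adjoin K {θ} ≤
          IntermediateField.adjoin K {θ - algebraMap F E (res θ)} := by
        rw [IntermediateField.adjoin_simple_le_iff]
        have h2 := IntermediateField.mem_adjoin_simple_self K (θ - algebraMap F E (res θ))
        have h3 : algebraMap F E (res θ) ∈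
            IntermediateField.adjoin K {θ - algebraMap F E (res θ)} := by
          rw [hL.compat]
          exact IntermediateField.algebraMap_mem _ _
        have h4 := add_mem h2 h3
        rwa [sub_add_cancel] at h4
      exact h1 x.2
    · intro h0
      exact hx (Subtype.ext h0)
  · intro σ x
    exact hL.inv (σ.restrictScalars K) x

omit [IsAlgClosed F] in
/-- The roots with a given residue are conjugate. -/
theorem orbit_of_val (hL : LocF F K s v) (hp : p = p₀.map (algebraMap K E)) (hsep : p.Separable)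
    (hres : ∀ θ, p.eval θ = 0 → v (θ - algebraMap F E (res θ)) < 1) (hθ : p.eval θ = 0)
    (hv : (rtsOver p res (res θ)).card = 1 ∨ v (θ - algebraMap F E (res θ)) ^ (rtsOver p res (res θ)).card =
      v (algebraMap K E (algebraMap F[X] K X) - algebraMap F E s)) {θ' : E}
    (hθ' : p.eval θ' = 0) (h : res θ' = res θ) : ∃ σ : E ≃ₐ[K] E, σ θ = θ' := by
  have h0 : θ ∈ rtsOver p res (res θ) := by
    rw [rtsOver, Finset.mem_filter, Multiset.mem_toFinset, mem_roots']
    exact ⟨⟨hsep.ne_zero, hθ⟩, rfl⟩
  have h3 : θ' ∈ rtsOver p res (res θ) := by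
    rw [rtsOver, Finset.mem_filter, Multiset.mem_toFinset, mem_roots']
    exact ⟨⟨hsep.ne_zero, hθ'⟩, h⟩
  rcases hv with hv | hv
  · rw [Finset.card_eq_one] at hv
    obtain ⟨a, ha⟩ := hv
    rw [ha, Finset.mem_singleton] at h0 h3
    exact ⟨1, by rw [h0, h3]; rfl⟩
  have : IsAlgClosed E := IsAlgClosure.isAlgClosed K
  have : Normal K E := IsAlgClosure.normal K E
  have hpos : 0 < (rtsOver p res (res θ)).card := ob_pos hsep hθ
  have hne : θ - algebraMap F E (res θ) ≠ 0 := ob_ne hL hpos hv
  have h1 := degree_eq (K := K) hne (hres θ hθ) hpos hL.inv (ob_hK hL hv) (ob_int _)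
    (ob_hdeg hL hp hsep hres hθ)
  rw [ob_deg hL, ← ob_card hp hsep hθ] at h1
  have h2 := Finset.eq_of_subset_of_card_le (ob_sub hL hp hsep hres hθ) h1.ge
  rw [← h2, Multiset.mem_toFinset] at h3
  exact ob_conj h3

end Orbit

/-- The roots with a given residue are conjugate, if the curve is smooth. -/
theorem orbit (hL : LocF F K s v) (hφ : φ.Monic) (hsm : IsSmoothAt φ s) (hp : p = φ.map (io F K E))
    (hsep : p.Separable) (hres : ∀ θ, p.eval θ = 0 → v (θ - algebraMap F E (res θ)) < 1) (hθ : p.eval θ = 0)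
    {θ' : E} (hθ' : p.eval θ' = 0) (h : res θ' = res θ) : ∃ σ : E ≃ₐ[K] E, σ θ = θ' :=
  orbit_of_val (p₀ := φ.map (algebraMap F[X] K)) hL (by rw [hp, Polynomial.map_map]; rfl) hsep hres hθ
    (card_or_val hL hφ hsm hp hsep hres hθ) hθ' h

end

end Pool.Agent.Lib.MP_89bcae_ag.Zc
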