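import Mathlib
import Pool.Agent.Lib.MP_89bcae_ag.Zc.Orb

/-!
# Cocycles on the roots, for a smooth curve
-/

open Polynomial IsDedekindDomain IsLocalRing

open scoped Classical Polynomial.Bivariate

namespace Pool.Agent.Lib.MP_89bcae_ag.Zc

open Pool.Agent.Lib.MP_89bcae_ag.Wt Pool.Agent.Lib.MP_89bcae_ag.Wt.Lns Pool.Agent.Lib.MP_89bcae_ag.Bra
  Pool.Agent.Lib.MP_89bcae_ag.Brt

/-! ROW V10 -/

section

variable {F K E : Type} [Field F] [IsAlgClosed F] [Field K] [Algebra F[X] K] [Field E]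
  [Algebra K E] [Algebra F E] [IsAlgClosure K E] {ℓ : ℕ} {s : F} {v : AbsoluteValue E ℝ} {ζ : F}

omit [IsAlgClosed F] [Field F] [Algebra F E] in
private theorem V10c_mem {p : E[X]} {res : E → F} (hp0 : p ≠ 0) {r : F} {x : E} :
    x ∈ rtsOver p res r ↔ p.eval x = 0 ∧ res x = r := by
  unfold rtsOver
  rw [Finset.mem_filter, Multiset.mem_toFinset, Polynomial.mem_roots hp0]
  exact Iff.rfl

omit [IsAlgClosed F] [IsAlgClosure K E] in
private theorem V10c_fix (hL : LocF F K s v) (σ : E ≃ₐ[K] E) (c : F) :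
    σ (algebraMap F E c) = algebraMap F E c := by
  rw [hL.compat, AlgEquiv.commutes]

omit [IsAlgClosed F] [IsAlgClosure K E] [Algebra F[X] K] [Algebra F E] in
/-- the roots of `p` are permuted -/
private theorem V10c_eval {p₀ : K[X]} {p : E[X]} (hp : p = p₀.map (algebraMap K E))
    (σ : E ≃ₐ[K] E) (x : E) : p.eval (σ x) = σ (p.eval x) := by
  rw [hp, eval_map_algebraMap, eval_map_algebraMap]
  exact aeval_algHom_apply (σ : E →ₐ[K] E) x p₀

omit [IsAlgClosure K E] in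
/-- the stabiliser of `θ` as automorphisms over `K(θ)` -/
private theorem V10c_lift {θ : E} (σ : E ≃ₐ[K] E) (hσ : σ θ = θ) :
    ∃ τ : E ≃ₐ[IntermediateField.adjoin K {θ}] E, ∀ x, τ x = σ x := by
  have h1 : (σ : E →ₐ[K] E).comp (IntermediateField.adjoin K {θ}).val =
      (IntermediateField.adjoin K {θ}).val := by
    apply IntermediateField.adjoin_algHom_ext
    intro x hx
    have hx2 : x = θ := hx
    subst hx2
    exact hσ
  refine ⟨AlgEquiv.ofRingEquiv (f := σ.toRingEquiv) (fun r => ?_), fun x => rfl⟩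
  exact congrArg (fun φ => φ r) h1
omit [IsAlgClosed F] [IsAlgClosure K E] [Algebra F E] in
private theorem V10c_X (θ : E) : algebraMap (IntermediateField.adjoin K {θ}) E
    (@algebraMap F[X] (IntermediateField.adjoin K {θ}) _ _ (algAdj F K θ) X) = θ := by
  show algebraMap (IntermediateField.adjoin K {θ}) E (eval₂RingHom
    ((algebraMap K (IntermediateField.adjoin K {θ})).comp
    ((algebraMap F[X] K).comp (C : F →+* F[X]))) (IntermediateField.AdjoinSimple.gen K θ) X) = θ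
  rw [coe_eval₂RingHom, eval₂_X]
  exact IntermediateField.AdjoinSimple.algebraMap_gen K θ

omit [IsAlgClosed F] in
private theorem V10c_coprime (hℓ : ℓ.Prime) (hℓF : (ℓ : F) ≠ 0) (K : Type) [Field K] [Algebra F[X] K] :
    (ringExpChar K).Coprime ℓ := by
  have hK : (ℓ : K) ≠ 0 := by
    intro h0
    apply hℓF
    have h1 : ((algebraMap F[X] K).comp C) (ℓ : F) = 0 := by
      rw [map_natCast]
      exact h0
    exact (map_eq_zero_iff _ (RingHom.injective _)).1 h1
  have h1 := ringExpChar.expChar K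
  generalize ringExpChar K = q at h1 ⊢
  rcases h1 with _ | hq
  · exact Nat.coprime_one_left ℓ
  · rw [Nat.coprime_primes hq hℓ]
    rintro rfl
    exact hK (CharP.cast_eq_zero K _)

/-- the last step: an equation of values -/
private theorem V10c_val {V W : ℝ} (h0 : 0 < V) (h1 : V < 1) {q m : ℕ} {i : ℤ} (hℓ : ℓ.Prime)
    (hq : q.Coprime ℓ) (hW : W ^ ℓ = V) (hi : W ^ q ^ m = V ^ i) : False := by
  have h2 : V ^ ((q ^ m : ℕ) : ℤ) = V ^ (i * (ℓ : ℤ)) := by
    rw [zpow_natCast, zpow_mul, ← hi, zpow_natCast, ← hW, ← pow_mul, ← pow_mul, mul_comm]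
  have h3 : ((q ^ m : ℕ) : ℤ) = i * (ℓ : ℤ) := zpow_right_injective₀ h0 h1.ne h2
  have h4 : (ℓ : ℤ) ∣ ((q ^ m : ℕ) : ℤ) := ⟨i, by rw [h3, mul_comm]⟩
  have h5 : ℓ ∣ q ^ m := Int.natCast_dvd_natCast.1 h4
  have h6 : ℓ ∣ q := hℓ.dvd_of_dvd_pow h5
  have h7 : ℓ ∣ 1 := by
    rw [← hq.gcd_eq_one]
    exact Nat.dvd_gcd h6 dvd_rfl
  exact hℓ.one_lt.ne' (Nat.dvd_one.1 h7)

private theorem V10c_key (hℓ : ℓ.Prime) (hℓF : (ℓ : F) ≠ 0) (hζ : IsPrimitiveRoot ζ ℓ)
    (hL : LocF F K s v) {p₀ : K[X]} {p : E[X]}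
    (hp : p = p₀.map (algebraMap K E)) (hsep : p.Separable)
    {res : E → F} (hres : ∀ θ, p.eval θ = 0 → v (θ - algebraMap F E (res θ)) < 1)
    (hcv : ∀ θ, p.eval θ = 0 → (rtsOver p res (res θ)).card = 1 ∨
      v (θ - algebraMap F E (res θ)) ^ (rtsOver p res (res θ)).card =
        v (algebraMap K E (algebraMap F[X] K X) - algebraMap F E s))
    (e : (E ≃ₐ[K] E) → E → ℤ) (hcts : IsCts e)
    (hc : ∀ g h θ, p.eval θ = 0 → (ℓ : ℤ) ∣ e h (g⁻¹ θ) + e g θ - e (g * h) θ)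
    (hsum : ∀ g r, (ℓ : ℤ) ∣ ∑ θ ∈ rtsOver p res r, e g θ)
    {θ : E} (hθ : p.eval θ = 0) (σ : E ≃ₐ[K] E) (hσ : σ θ = θ) : (ℓ : ℤ) ∣ e σ θ := by
  have : Fact ℓ.Prime := ⟨hℓ⟩
  have hp0 : p ≠ 0 := hsep.ne_zero
  have hθm : θ ∈ rtsOver p res (res θ) := (V10c_mem hp0).2 ⟨hθ, rfl⟩
  by_cases hcd : (rtsOver p res (res θ)).card = 1
  · have h1 := hsum σ (res θ)
    obtain ⟨a, ha⟩ := Finset.card_eq_one.1 hcd
    rw [ha, Finset.mem_singleton] at hθm
    rwa [ha, Finset.sum_singleton, ← hθm] at h1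
  have hval : ∀ x ∈ rtsOver p res (res θ), v (x - algebraMap F E (res x)) ^ (rtsOver p res (res x)).card =
      v (algebraMap K E (algebraMap F[X] K X) - algebraMap F E s) := by
    intro x hx
    have hx' := (V10c_mem hp0).1 hx
    rcases hcv x hx'.1 with h1 | h1
    · rw [hx'.2] at h1
      exact absurd h1 hcd
    · exact h1
  have hEac : IsAlgClosed E := IsAlgClosure.isAlgClosed K
  have hKE : Algebra.IsAlgebraic K E := IsAlgClosure.isAlgebraic
  have hrt : ∀ (g : E ≃ₐ[K] E) (x : E), p.eval x = 0 → p.eval (g x) = 0 := by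
    intro g x hx
    rw [V10c_eval hp, hx, map_zero]
  have hrs : ∀ (g : E ≃ₐ[K] E) (x : E), x ∈ rtsOver p res (res θ) → g x ∈ rtsOver p res (res θ) := by
    intro g x hx
    rw [V10c_mem hp0] at hx ⊢
    exact ⟨hrt g x hx.1, (res_conj hL hres g hx.1 (hrt g x hx.1)).trans hx.2⟩
  have horb : ∀ x ∈ rtsOver p res (res θ), ∃ τ : E ≃ₐ[K] E, τ θ = x := by
    intro x hx
    rw [V10c_mem hp0] at hx
    exact orbit_of_val hL hp hsep hres hθ (hcv θ hθ) hx.1 hx.2
  -- roots of `x - res θ`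
  have hex : ∀ x : E, ∃ y : E, y ^ ℓ = x - algebraMap F E (res θ) := fun x =>
    IsAlgClosed.exists_pow_nat_eq _ hℓ.pos
  choose ρ hρ using hex
  have hne : ∀ x ∈ rtsOver p res (res θ), ρ x ≠ 0 := by
    intro x hx h0
    have hx' := (V10c_mem hp0).1 hx
    let _ := algAdj F K x
    have h0' : LocF F (IntermediateField.adjoin K {x}) (res x) v :=
      locF_adj hL hp hsep hres hx'.1 (hval x hx)
    have h1 := h0'.ctx.ne
    rw [V10c_X x, hx'.2] at h1
    have h2 := hρ x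
    rw [h0, zero_pow hℓ.ne_zero] at h2
    exact h1 (sub_eq_zero.1 h2.symm)
  have hζE : IsPrimitiveRoot (algebraMap F E ζ) ℓ := hζ.map_of_injective (algebraMap F E).injective
  have hkex : ∀ (g : E ≃ₐ[K] E) (x : E), ∃ k : ℕ, g (ρ (g⁻¹ x)) = algebraMap F E ζ ^ k * ρ x := by
    intro g x
    have h1 : (g (ρ (g⁻¹ x))) ^ ℓ = ρ x ^ ℓ := by
      rw [← map_pow, hρ, hρ, map_sub, V10c_fix hL]
      congr 1
      show (g * g⁻¹) x = x
      rw [mul_inv_cancel]
      rfl
    by_cases h0 : ρ x = 0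
    · refine ⟨0, ?_⟩
      rw [h0, mul_zero]
      rw [h0, zero_pow hℓ.ne_zero] at h1
      exact pow_eq_zero_iff hℓ.ne_zero |>.1 h1
    · have : NeZero ℓ := ⟨hℓ.ne_zero⟩
      obtain ⟨i, -, hi⟩ := hζE.eq_pow_of_pow_eq_one (ξ := g (ρ (g⁻¹ x)) / ρ x) (by
        rw [div_pow, h1, div_self (pow_ne_zero _ h0)])
      exact ⟨i, by rw [hi, div_mul_cancel₀ _ h0]⟩
  choose k hk using hkex
  have hzk : ∀ a b : ℕ, algebraMap F E ζ ^ a = algebraMap F E ζ ^ b → (a : ZMod ℓ) = b := by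
    have h0 : algebraMap F E ζ ≠ 0 := hζE.ne_zero hℓ.ne_zero
    have hle : ∀ a b : ℕ, a ≤ b → algebraMap F E ζ ^ a = algebraMap F E ζ ^ b →
        (a : ZMod ℓ) = b := by
      intro a b hle hab
      rw [ZMod.natCast_eq_natCast_iff, Nat.modEq_iff_dvd' hle]
      apply hζE.dvd_of_pow_eq_one
      obtain ⟨d, rfl⟩ := Nat.exists_eq_add_of_le hle
      rw [pow_add] at hab
      rw [Nat.add_sub_cancel_left]
      exact (left_eq_mul₀ (pow_ne_zero _ h0)).1 hab
    intro a b hab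
    rcases le_total a b with h | h
    · exact hle a b h hab
    · exact (hle b a h hab.symm).symm
  have hkc : ∀ (g h : E ≃ₐ[K] E) (x : E), x ∈ rtsOver p res (res θ) →
      (k (g * h) x : ZMod ℓ) = k h (g⁻¹ x) + k g x := by
    intro g h x hx
    rw [← Nat.cast_add]
    apply hzk
    have h1 := hk (g * h) x
    have h2 : (g * h) (ρ ((g * h)⁻¹ x)) = g (h (ρ (h⁻¹ (g⁻¹ x)))) := by
      rw [mul_inv_rev]
      rfl
    rw [h2, hk h (g⁻¹ x), map_mul, map_pow, V10c_fix hL, hk g x, ← mul_assoc, ← pow_add] at h1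
    exact (mul_right_cancel₀ (hne x hx) h1).symm
  have hec : ∀ (g h : E ≃ₐ[K] E) (x : E), x ∈ rtsOver p res (res θ) →
      (e (g * h) x : ZMod ℓ) = e h (g⁻¹ x) + e g x := by
    intro g h x hx
    have h1 := (ZMod.intCast_zmod_eq_zero_iff_dvd _ ℓ).2 (hc g h x ((V10c_mem hp0).1 hx).1)
    push_cast at h1
    exact (sub_eq_zero.1 h1).symm
  -- the stabiliser
  obtain ⟨a, ha⟩ : ∃ a : ZMod ℓ, ∀ τ : E ≃ₐ[K] E, τ θ = θ → (e τ θ : ZMod ℓ) = k τ θ * a := by
    let _ := algAdj F K θ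
    have hL₁ : LocF F (IntermediateField.adjoin K {θ}) (res θ) v :=
      locF_adj hL hp hsep hres hθ (hval θ hθm)
    have : Algebra.IsAlgebraic (IntermediateField.adjoin K {θ}) E :=
      Algebra.IsAlgebraic.tower_top (K := K) _
    have hAC : IsAlgClosure (IntermediateField.adjoin K {θ}) E := ⟨hEac, inferInstance⟩
    have hXθ : algebraMap (IntermediateField.adjoin K {θ}) E
      (algebraMap F[X] (IntermediateField.adjoin K {θ}) X) = θ := V10c_X θ
    have hζ₁ : IsPrimitiveRoot (algebraMap F[X] (IntermediateField.adjoin K {θ}) (C ζ)) ℓ :=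
      hζ.map_of_injective (f := (algebraMap F[X] (IntermediateField.adjoin K {θ})).comp C)
        (RingHom.injective _)
    have hϖ : ρ θ ^ ℓ = algebraMap (IntermediateField.adjoin K {θ}) E
        (algebraMap F[X] (IntermediateField.adjoin K {θ}) X) - algebraMap F E (res θ) := by
      rw [hXθ, hρ]
    obtain ⟨χ, hχ⟩ := exists_isChi (K := IntermediateField.adjoin K {θ}) hℓ hζ₁ (hne θ hθm)
      ⟨IntermediateField.AdjoinSimple.gen K θ - algebraMap F[X] _ (C (res θ)), by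
        rw [map_sub, ← hL₁.compat, hρ, IntermediateField.AdjoinSimple.algebraMap_gen]⟩
    have hτθ : ∀ g : E ≃ₐ[IntermediateField.adjoin K {θ}] E, g θ = θ := by
      intro g
      have h1 := g.commutes (algebraMap F[X] (IntermediateField.adjoin K {θ}) X)
      rwa [hXθ] at h1
    obtain ⟨a, -, ha⟩ := hom_chi hL₁ hℓF hζ hχ hϖ
      (fun g => ((e (g.restrictScalars K) θ : ℤ) : ZMod ℓ))
      (by
        obtain ⟨T, hT⟩ := hcts
        refine ⟨T, fun g g' hgg => ?_⟩
        show ((e (g.restrictScalars K) θ : ℤ) : ZMod ℓ) = ((e (g'.restrictScalars K) θ : ℤ) : ZMod ℓ)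
        rw [hT (g.restrictScalars K) (g'.restrictScalars K) hgg])
      (by
        intro g h
        have h1 := hec (g.restrictScalars K) (h.restrictScalars K) θ hθm
        have h2 : (g.restrictScalars K)⁻¹ θ = θ := by
          have h3 := hτθ g⁻¹
          exact h3
        rw [h2, add_comm] at h1
        exact h1)
      (by
        intro g
        rw [nsmul_eq_mul, ZMod.natCast_self, zero_mul])
    refine ⟨a, fun τ hτ => ?_⟩
    obtain ⟨τ₁, hτ₁⟩ := V10c_lift τ hτ
    have h1 : τ₁.restrictScalars K = τ := by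
      ext x
      exact hτ₁ x
    have h2 := ha τ₁
    simp only [h1] at h2
    rw [h2, nsmul_eq_mul]
    congr 1
    apply hzk
    have h3 := hχ.act τ₁
    rw [map_pow, ← hL₁.compat, hτ₁] at h3
    have h4 := hk τ θ
    have h5 : τ⁻¹ θ = θ := by
      have h6 := congrArg (τ⁻¹ : E ≃ₐ[K] E) hτ
      have h7 : τ⁻¹ (τ θ) = θ := by
        show (τ⁻¹ * τ) θ = θ
        rw [inv_mul_cancel]
        rfl
      rw [h7] at h6
      exact h6.symm
    rw [h5, h3] at h4
    exact mul_right_cancel₀ (hne θ hθm) h4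
  -- the coefficient is zero
  have ha0 : a = 0 := by
    by_contra hane
    let act : (E ≃ₐ[K] E) → {x // x ∈ rtsOver p res (res θ)} → {x // x ∈ rtsOver p res (res θ)} :=
      fun g x => ⟨g x.1, hrs g x.1 x.2⟩
    let Cc : (E ≃ₐ[K] E) → {x // x ∈ rtsOver p res (res θ)} → ZMod ℓ :=
      fun g x => (e g x.1 : ZMod ℓ) - k g x.1 * a
    have hC : ∀ g g' x, Cc (g * g') x = Cc g' (act g⁻¹ x) + Cc g x := by
      intro g g' x
      show (e (g * g') x.1 : ZMod ℓ) - k (g * g') x.1 * a =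
        ((e g' (g⁻¹ x.1) : ZMod ℓ) - k g' (g⁻¹ x.1) * a) + ((e g x.1 : ZMod ℓ) - k g x.1 * a)
      rw [hec g g' x.1 x.2, hkc g g' x.1 x.2]
      ring
    have hact1 : ∀ x, act 1 x = x := fun x => rfl
    have hactm : ∀ g h x, act (g * h) x = act g (act h x) := fun g h x => rfl
    have hC1 : ∀ x, Cc 1 x = 0 := by
      intro x
      have h1 := hC 1 1 x
      rw [mul_one, inv_one, hact1] at h1
      exact left_eq_add.1 h1
    have hst : ∀ g : E ≃ₐ[K] E, g θ = θ → Cc g ⟨θ, hθm⟩ = 0 := by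
      intro g hgθ
      show (e g θ : ZMod ℓ) - k g θ * a = 0
      rw [ha g hgθ, sub_self]
    have hfix : ∀ g x, act g x = x → Cc g x = 0 := by
      intro g x hgx
      obtain ⟨τ, hτ⟩ := horb x.1 x.2
      have hτx : act τ ⟨θ, hθm⟩ = x := Subtype.ext hτ
      have hτx' : act τ⁻¹ x = ⟨θ, hθm⟩ := by
        rw [← hτx, ← hactm, inv_mul_cancel, hact1]
      have hg0 : act (τ⁻¹ * g * τ) ⟨θ, hθm⟩ = ⟨θ, hθm⟩ := by
        rw [hactm, hactm, hτx, hgx, hτx']
      have hg0' : act (τ⁻¹ * g * τ)⁻¹ ⟨θ, hθm⟩ = ⟨θ, hθm⟩ := by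
        conv_lhs => rw [← hg0]
        rw [← hactm, inv_mul_cancel, hact1]
      have h1 : Cc g x = Cc (τ * ((τ⁻¹ * g * τ) * τ⁻¹)) x := by
        congr 1
        group
      rw [h1, hC, hτx', hC, hg0', hst _ (congrArg Subtype.val hg0), add_zero]
      have h2 := hC τ τ⁻¹ x
      rw [mul_inv_cancel, hC1, hτx'] at h2
      exact h2.symm
    obtain ⟨D, hD, -⟩ := ops_shapiro act hact1 hactm Cc hC hfix
    have hk0 : ∀ g : E ≃ₐ[K] E, ℓ ∣ ∑ x ∈ rtsOver p res (res θ), k g x := by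
      intro g
      have h1 : ∑ x : {x // x ∈ rtsOver p res (res θ)}, Cc g x = 0 := by
        have h2 : ∑ x : {x // x ∈ rtsOver p res (res θ)}, D (act g⁻¹ x) =
            ∑ x : {x // x ∈ rtsOver p res (res θ)}, D x :=
          Fintype.sum_equiv ⟨act g⁻¹, act g, fun x => by rw [← hactm, mul_inv_cancel, hact1],
            fun x => by rw [← hactm, inv_mul_cancel, hact1]⟩ _ _ (fun x => rfl)
        rw [Finset.sum_congr rfl (fun x _ => hD g x), Finset.sum_sub_distrib, h2, sub_self]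
      have h3 : ∑ x ∈ rtsOver p res (res θ), ((e g x : ZMod ℓ) - k g x * a) = 0 := by
        rw [← h1]
        exact (Finset.sum_coe_sort (rtsOver p res (res θ))
          (fun x => (e g x : ZMod ℓ) - k g x * a)).symm
      have h4 : ∑ x ∈ rtsOver p res (res θ), (e g x : ZMod ℓ) = 0 := by
        have h5 := (ZMod.intCast_zmod_eq_zero_iff_dvd _ ℓ).2 (hsum g (res θ))
        push_cast at h5
        exact h5
      rw [Finset.sum_sub_distrib, h4, zero_sub, neg_eq_zero, ← Finset.sum_mul] at h3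
      have h6 := (mul_eq_zero.1 h3).resolve_right hane
      rw [← Nat.cast_sum] at h6
      exact (ZMod.natCast_eq_zero_iff _ _).1 h6
    -- the product of the roots
    have hP0 : ∏ x ∈ rtsOver p res (res θ), ρ x ≠ 0 := Finset.prod_ne_zero_iff.2 hne
    have hPfix : ∀ g : E ≃ₐ[K] E, g (∏ x ∈ rtsOver p res (res θ), ρ x) =
        ∏ x ∈ rtsOver p res (res θ), ρ x := by
      intro g
      rw [map_prod]
      have h1 : ∏ x ∈ rtsOver p res (res θ), g (ρ x) =
          ∏ x ∈ rtsOver p res (res θ), g (ρ (g⁻¹ x)) := by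
        refine Finset.prod_nbij' (fun x => g x) (fun x => g⁻¹ x) (fun x hx => hrs g x hx)
          (fun x hx => hrs g⁻¹ x hx) ?_ ?_ ?_
        · intro x _
          show (g⁻¹ * g) x = x
          rw [inv_mul_cancel]
          rfl
        · intro x _
          show (g * g⁻¹) x = x
          rw [mul_inv_cancel]
          rfl
        · intro x _
          have h2 : g⁻¹ (g x) = x := by
            show (g⁻¹ * g) x = x
            rw [inv_mul_cancel]
            rfl
          rw [h2]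
      rw [h1, Finset.prod_congr rfl (fun x _ => hk g x), Finset.prod_mul_distrib,
        Finset.prod_pow_eq_pow_sum]
      obtain ⟨j, hj⟩ := hk0 g
      rw [hj, pow_mul, hζE.pow_eq_one, one_pow, one_mul]
    obtain ⟨mm, y, hy⟩ := exists_pow_mem (K := K) _ hPfix
    have hy0 : y ≠ 0 := by
      rintro rfl
      rw [map_zero] at hy
      exact pow_ne_zero _ hP0 hy
    obtain ⟨i, hi⟩ := hL.disc y hy0
    have hv0 : 0 < v (algebraMap K E (algebraMap F[X] K X) - algebraMap F E s) :=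
      v.pos (sub_ne_zero.2 hL.ctx.ne)
    have hvx : ∀ x ∈ rtsOver p res (res θ), v (ρ x) ^ ℓ = v (θ - algebraMap F E (res θ)) := by
      intro x hx
      obtain ⟨τ, hτ⟩ := horb x hx
      rw [← map_pow, hρ, ← hτ, ← V10c_fix hL τ (res θ), ← map_sub, hL.inv, V10c_fix hL]
    have hvP : v (∏ x ∈ rtsOver p res (res θ), ρ x) ^ ℓ =
        v (algebraMap K E (algebraMap F[X] K X) - algebraMap F E s) := by
      rw [map_prod, ← Finset.prod_pow, Finset.prod_congr rfl hvx, Finset.prod_const]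
      exact hval θ hθm
    rw [← hy, map_pow] at hi
    exact V10c_val hv0 hL.ctx.lt_one hℓ (V10c_coprime hℓ hℓF K) hvP hi
  have h1 := ha σ hσ
  rw [ha0, mul_zero] at h1
  exact (ZMod.intCast_zmod_eq_zero_iff_dvd _ ℓ).1 h1

/-- The curves with smooth branch curve. -/
theorem shaProp_of_val (hℓ : ℓ.Prime) (hℓF : (ℓ : F) ≠ 0) (hζ : IsPrimitiveRoot ζ ℓ)
    (hL : LocF F K s v) {p₀ : K[X]} {p : E[X]} (hp : p = p₀.map (algebraMap K E)) (hsep : p.Separable)
    {res : E → F} (hres : ∀ θ, p.eval θ = 0 → v (θ - algebraMap F E (res θ)) < 1)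
    (hcv : ∀ θ, p.eval θ = 0 → (rtsOver p res (res θ)).card = 1 ∨
      v (θ - algebraMap F E (res θ)) ^ (rtsOver p res (res θ)).card =
        v (algebraMap K E (algebraMap F[X] K X) - algebraMap F E s)) :
    ShaProp ℓ K p res := by
  intro e hcts hc hsum
  have : Fact ℓ.Prime := ⟨hℓ⟩
  have hrt : ∀ (g : E ≃ₐ[K] E) (x : E), p.eval x = 0 → p.eval (g x) = 0 := by
    intro g x hx
    rw [V10c_eval hp, hx, map_zero]
  obtain ⟨D, hD, -⟩ := ops_shapiro (G := E ≃ₐ[K] E) (X := {x : E // p.eval x = 0})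
    (fun g x => ⟨g x.1, hrt g x.1 x.2⟩) (fun x => rfl) (fun g h x => rfl)
    (fun g x => (e g x.1 : ZMod ℓ))
    (by
      intro g h x
      have h1 := (ZMod.intCast_zmod_eq_zero_iff_dvd _ ℓ).2 (hc g h x.1 x.2)
      push_cast at h1
      exact (sub_eq_zero.1 h1).symm)
    (by
      intro g x hgx
      exact (ZMod.intCast_zmod_eq_zero_iff_dvd _ ℓ).2 (V10c_key hℓ hℓF hζ hL hp hsep hres hcv e hcts
        hc hsum x.2 g (congrArg Subtype.val hgx)))
  refine ⟨fun x => if h : p.eval x = 0 then ((D ⟨x, h⟩).val : ℤ) else 0, fun σ θ hθ => ?_⟩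
  have h1 := hD σ ⟨θ, hθ⟩
  rw [← ZMod.intCast_zmod_eq_zero_iff_dvd]
  beta_reduce
  rw [dif_pos hθ, dif_pos (hrt σ⁻¹ θ hθ)]
  push_cast
  rw [ZMod.natCast_zmod_val, ZMod.natCast_zmod_val]
  simp only at h1
  rw [h1, sub_self]

end

end Pool.Agent.Lib.MP_89bcae_ag.Zc
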