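import Mathlib
import Pool.Agent.Lib.MP_89bcae_ag.Zc.Plc
import Pool.Agent.Lib.MP_89bcae_ag.Zc.Sha

/-!
# Local triviality at a place where the curve is smooth
-/

attribute [local instance 100000] Pool.Agent.Lib.MP_89bcae_ag.Brt.tffFields
attribute [local instance 100000] Pool.Agent.Lib.MP_89bcae_ag.Wt.ifrNF Pool.Agent.Lib.MP_89bcae_ag.Wt.iddNF

open Polynomial IsDedekindDomain

open scoped Classical

namespace Pool.Agent.Lib.MP_89bcae_ag.Zc

open Pool.Agent.Lib.MP_89bcae_ag.Wt Pool.Agent.Lib.MP_89bcae_ag.Wt.Lns Pool.Agent.Lib.MP_89bcae_ag.Bra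
  Pool.Agent.Lib.MP_89bcae_ag.Brt

open Pool.Agent.Lib.MP_89bcae_ag.Sup (LocCtx)

open Pool.Agent.Lib.MP_89bcae_ag.Zs

/-- The roots of a monic polynomial with integral coefficients are integral. -/
theorem root_le {M : Type} [Field M] {v : AbsoluteValue M ℝ} (hna : ∀ x y, v (x + y) ≤ max (v x) (v y))
    {p : M[X]} (hp : p.Monic) (hc : ∀ n, v (p.coeff n) ≤ 1) {θ : M} (hθ : p.eval θ = 0) : v θ ≤ 1 := by
  by_contra h
  push Not at h
  have h1 : ∀ m : ℕ, v (∑ n ∈ Finset.range m, p.coeff n * θ ^ n) < v θ ^ m := by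
    intro m
    induction m with
    | zero => simp
    | succ m ih =>
      rw [Finset.sum_range_succ]
      have h2 : v θ ^ m < v θ ^ (m + 1) := pow_lt_pow_right₀ h (Nat.lt_succ_self m)
      refine lt_of_le_of_lt (hna _ _) (max_lt (ih.trans h2) (lt_of_le_of_lt ?_ h2))
      rw [v.map_mul, map_pow]
      exact mul_le_of_le_one_left (pow_nonneg (v.nonneg _) _) (hc m)
  have h2 := h1 p.natDegree
  rw [eval_eq_sum_range, Finset.sum_range_succ, hp.coeff_natDegree, one_mul] at hθ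
  rw [eq_neg_of_add_eq_zero_left hθ, v.map_neg, map_pow] at h2
  exact lt_irrefl _ h2

section

variable {F L Ω K M : Type} [Field F] [IsAlgClosed F] [Field L] [Algebra F[X] L] [Field Ω] [Algebra L Ω]
  [IsAlgClosure L Ω] [Field K] [Field M] [Algebra K M] [IsAlgClosure K M] {ℓ : ℕ} {ζ : F} {f : L[X]}
  [hG : IsGood ℓ (f.map (algebraMap L Ω))]

/-- Local triviality at a place where the curve is smooth. -/
theorem lt_gen (hℓ : ℓ.Prime) (hℓF : (ℓ : F) ≠ 0) (hζ : IsPrimitiveRoot ζ ℓ) (ψ : F[X] →+* L)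
    (hψ : ∀ a : F, ψ (C a) = algebraMap F[X] L (C a)) {φ : F[X][X]} (hφ : φ.Monic) (hf : f = φ.map ψ)
    (hsep : f.Separable) {s : F} (hsm : IsSmoothAt φ s) (i : L →+* K) (j : Ω →+* M)
    (hij : ∀ z, j (algebraMap L Ω z) = algebraMap K M (i z)) {v : AbsoluteValue M ℝ}
    (hL : ∀ [Algebra F[X] K] [Algebra F M], (∀ p, algebraMap F[X] K p = i (ψ p)) →
      (∀ a : F, algebraMap F M a = algebraMap K M (i (algebraMap F[X] L (C a)))) → LocF F K s v)
    (b : (Ω ≃ₐ[L] Ω) → (Ω ≃ₐ[L] Ω) → (FunField ℓ (f.map (algebraMap L Ω)))ˣ) (hb : ICoc b)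
    (hu : IUnr F b) (C : (Ω ≃ₐ[L] Ω) → (Pt ℓ (f.map (algebraMap L Ω)) →₀ ℤ)) (hC : IDiv b C)
    (hn : ∃ n : ℕ, ∀ g, ℓ ^ n • (cl (C g) : Jac ℓ (f.map (algebraMap L Ω))) = 0) :
    LTj (Lv := K) ℓ f j fun g => cl (C g) := by
  let _ : Algebra F[X] K := (i.comp ψ).toAlgebra
  let _ : Algebra F M := ((algebraMap K M).comp ((i.comp (algebraMap F[X] L)).comp Polynomial.C)).toAlgebra
  have hLL : LocF F K s v := hL (fun p => rfl) (fun a => rfl)
  have hp' : f.map (j.comp (algebraMap L Ω)) = φ.map (io F K M) := by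
    rw [hf, Polynomial.map_map]
    congr 1
    refine RingHom.ext fun p => ?_
    show j (algebraMap L Ω (ψ p)) = algebraMap K M (i (ψ p))
    exact hij _
  have hp : f.map (j.comp (algebraMap L Ω)) = (φ.map (algebraMap F[X] K)).map (algebraMap K M) := by
    rw [hp', Polynomial.map_map]
    rfl
  have hsep' : (f.map (j.comp (algebraMap L Ω))).Separable := hsep.map
  have hle : ∀ θ, (f.map (j.comp (algebraMap L Ω))).eval θ = 0 → v θ ≤ 1 := by
    intro θ hθ
    rw [hp'] at hθ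
    refine root_le hLL.ctx.nonarch (hφ.map _) (fun n => ?_) hθ
    rw [coeff_map]
    have h1 := io_sub (K := K) (E := M) hLL (φ.coeff n)
    have h2 := hLL.ctx.nonarch (io F K M (φ.coeff n) - algebraMap F M ((φ.coeff n).eval s))
      (algebraMap F M ((φ.coeff n).eval s))
    rw [sub_add_cancel] at h2
    refine h2.trans (max_le h1.le ?_)
    by_cases h3 : (φ.coeff n).eval s = 0
    · rw [h3, map_zero, map_zero]
      exact zero_le_one
    · exact (hLL.ctx.const _ h3).le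
  let res : M → F := fun θ => if h : v θ ≤ 1 then (hLL.ctx.residue θ h).choose else 0
  have hres : ∀ θ, (f.map (j.comp (algebraMap L Ω))).eval θ = 0 → v (θ - algebraMap F M (res θ)) < 1 := by
    intro θ hθ
    have h1 := hle θ hθ
    show v (θ - algebraMap F M (if h : v θ ≤ 1 then (hLL.ctx.residue θ h).choose else 0)) < 1
    rw [dif_pos h1]
    exact (hLL.ctx.residue θ h1).choose_spec
  refine ltj_of_vertical (F := F) (K := K) (a := s) (v := v) (res := res) j i (fun z => (hij z).symm)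
    (fun g _ x => g.commutes x) (ψ X) (fun c => ?_) rfl hℓ hℓF hζ hLL (by rw [hf]; exact hφ.map _) hsep' hres ?_
    b hb hu C hC hn
  · show i (algebraMap F[X] L (Polynomial.C c)) = i (ψ (Polynomial.C c))
    rw [hψ]
  · exact shaProp_of_val hℓ hℓF hζ hLL hp hsep' hres fun θ hθ => card_or_val hLL hφ hsm hp' hsep' hres hθ

/-- Local triviality at the finite places. -/
theorem lt_fin [IsFractionRing F[X] L] (hℓ : ℓ.Prime) (hℓF : (ℓ : F) ≠ 0) (hζ : IsPrimitiveRoot ζ ℓ)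
    {φ : F[X][X]} (hφ : φ.Monic) (hf : f = φ.map (algebraMap F[X] L))
    (hsep : f.Separable) (hsm : ∀ s, IsSmoothAt φ s) (i : L →+* K) (j : Ω →+* M)
    (hij : ∀ z, j (algebraMap L Ω z) = algebraMap K M (i z)) {v : AbsoluteValue M ℝ} (hv : IsPlace F i v)
    (h : v (algebraMap K M (i (algebraMap F[X] L X))) ≤ 1)
    (b : (Ω ≃ₐ[L] Ω) → (Ω ≃ₐ[L] Ω) → (FunField ℓ (f.map (algebraMap L Ω)))ˣ) (hb : ICoc b)
    (hu : IUnr F b) (C : (Ω ≃ₐ[L] Ω) → (Pt ℓ (f.map (algebraMap L Ω)) →₀ ℤ)) (hC : IDiv b C)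
    (hn : ∃ n : ℕ, ∀ g, ℓ ^ n • (cl (C g) : Jac ℓ (f.map (algebraMap L Ω))) = 0) :
    LTj (Lv := K) ℓ f j fun g => cl (C g) := by
  obtain ⟨s, hs⟩ := locF_fin hv h
  exact lt_gen hℓ hℓF hζ (algebraMap F[X] L) (fun _ => rfl) hφ hf hsep (hsm s) i j hij hs b hb hu C hC hn

end

end Pool.Agent.Lib.MP_89bcae_ag.Zc
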