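import Mathlib
import Pool.Agent.Lib.MP_89bcae_ag.Zc.Mod
import Pool.Agent.Lib.MP_89bcae_ag.Zc.Ver
import Pool.Agent.Lib.MP_89bcae_ag.Zc.Inf

/-!
# From the Selmer groups to the Brauer groups and the Picard groups
-/

attribute [local instance 100000] Pool.Agent.Lib.MP_89bcae_ag.Brt.tffFields
attribute [local instance 100000] Pool.Agent.Lib.MP_89bcae_ag.Wt.ifrNF Pool.Agent.Lib.MP_89bcae_ag.Wt.iddNF

open Polynomial IsDedekindDomain

open scoped Classical

namespace Pool.Agent.Lib.MP_89bcae_ag.Zc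

open Pool.Agent.Lib.MP_89bcae_ag.Wt Pool.Agent.Lib.MP_89bcae_ag.Wt.Lns Pool.Agent.Lib.MP_89bcae_ag.Bra
  Pool.Agent.Lib.MP_89bcae_ag.Brt

open Pool.Agent.Lib.MP_89bcae_ag.Zs

lemma map_base_eq {k : Type} (F L : Type) [Field k] [Field F] [Algebra k F] [Field L] [Algebra F[X] L]
    (f : k[X][X]) : f.map (base k F L L) = (Zs.ext F f).map (algebraMap F[X] L) := by
  rw [Zs.ext, Polynomial.map_map]
  rfl

/-- The generic fibre. -/
theorem good_of {k F L Ω : Type} [Field k] [Field F] [Algebra k F] [IsAlgClosure k F] [Field L]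
    [Algebra F[X] L] [IsFractionRing F[X] L] [Field Ω] [Algebra L Ω] [IsAlgClosure L Ω] {ℓ e : ℕ} (hℓ : ℓ.Prime)
    (hk : (ℓ : k) ≠ 0) {f : k[X][X]} (hB : IsBranchCurve ℓ e F f) :
    (f.map (base k F L L)).Separable ∧ IsGood ℓ ((f.map (base k F L L)).map (algebraMap L Ω)) := by
  have hΩ : IsAlgClosed Ω := IsAlgClosure.isAlgClosed L
  have hmon : (Zs.ext F f).Monic := hB.monic.map _
  have hinj : Function.Injective (algebraMap F[X] L) := IsFractionRing.injective F[X] L
  have hinj' : Function.Injective (mapRingHom (algebraMap k F)) :=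
    map_injective _ (algebraMap k F).injective
  have hirr : Irreducible (f.map (base k F L L)) := by
    rw [map_base_eq]
    exact (hmon.irreducible_iff_irreducible_map_fraction_map (K := L)).1 hB.irreducible
  have hder : derivative (f.map (base k F L L)) ≠ 0 := by
    rw [map_base_eq, derivative_map, Ne, Polynomial.map_eq_zero_iff hinj, Zs.ext, derivative_map,
      Polynomial.map_eq_zero_iff hinj']
    exact hB.separable
  have hsep : (f.map (base k F L L)).Separable := (separable_iff_derivative_ne_zero hirr).2 hder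
  refine ⟨hsep, ⟨hΩ, hℓ.one_lt, ?_, ?_, ?_⟩⟩
  · intro h
    apply hk
    have h1 : ((algebraMap L Ω).comp ((algebraMap F[X] L).comp ((C : F →+* F[X]).comp (algebraMap k F)))) (ℓ : k) = 0 := by
      rw [map_natCast]
      exact h
    exact (_root_.map_eq_zero _).1 h1
  · intro θ hθ
    have hsep' : ((f.map (base k F L L)).map (algebraMap L Ω)).Separable := hsep.map
    have h1 := Polynomial.rootMultiplicity_le_one_of_separable hsep' θ
    have h2 : 0 < ((f.map (base k F L L)).map (algebraMap L Ω)).rootMultiplicity θ :=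
      (Polynomial.rootMultiplicity_pos hsep'.ne_zero).mpr hθ
    rw [show ((f.map (base k F L L)).map (algebraMap L Ω)).rootMultiplicity θ = 1 by omega]
    exact Nat.coprime_one_left ℓ
  · rw [natDegree_map, hB.monic.natDegree_map]
    exact hB.coprime

/-- The local property of the unramified cocycles. -/
def LocProp (ℓ : ℕ) (F : Type) {L : Type} (Ω : Type) [Field F] [Field L] [Algebra F[X] L] [Field Ω]
    [Algebra L Ω] (f : L[X]) [IsGood ℓ (f.map (algebraMap L Ω))] : Prop :=
  ∀ (b : (Ω ≃ₐ[L] Ω) → (Ω ≃ₐ[L] Ω) → (FunField ℓ (f.map (algebraMap L Ω)))ˣ)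
    (C : (Ω ≃ₐ[L] Ω) → (Pt ℓ (f.map (algebraMap L Ω)) →₀ ℤ)), ICoc b → IUnr F b → IDiv b C →
    (∃ n : ℕ, ∀ g, ℓ ^ n • (cl (C g) : Jac ℓ (f.map (algebraMap L Ω))) = 0) →
      LTa F ℓ f fun g => cl (C g)

/-- The theorem for general fields `L = F(t)` and algebraic closures. -/
theorem zs_aux {ℓ e : ℕ} (hℓ : ℓ.Prime) {k F K L Ω S : Type} [Field k] [Field F] [Algebra k F]
    [IsAlgClosure k F] [Field K] [Algebra F K] [Field S] [Algebra K S] [IsAlgClosure K S]
    [Field L] [Algebra F[X] L] [IsFractionRing F[X] L] [Algebra (RatFunc F) L]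
    [FiniteDimensional (RatFunc F) L] [Field Ω] [Algebra L Ω] [IsAlgClosure L Ω]
    (hk : (ℓ : k) ≠ 0) {f : k[X][X]} (hB : IsBranchCurve ℓ e F f)
    (hV : ∀ [IsGood ℓ ((f.map (base k F L L)).map (algebraMap L Ω))], LocProp ℓ F Ω (f.map (base k F L L)))
    (hNT : ∀ k' : IntermediateField k F, FiniteDimensional k k' →
      NTg ℓ 1 (f.map (base k F L L)) (LTa F ℓ (f.map (base k F L L))) (AutK k F L Ω k'))
    {t x y : K} (hind : AlgebraicIndependent F ![t, x]) (hy : y ^ ℓ = Zs.val F f t x) (i : L →+* K)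
    (hi : ∀ p : F[X], i (algebraMap F[X] L p) = aeval t p)
    (hgen : ∀ M : Subfield K, (∀ z : L, i z ∈ M) → x ∈ M → y ∈ M → M = ⊤) :
    (∀ k' : IntermediateField k F, FiniteDimensional k k' → BrauerInvariantsTrivial ℓ S k' t x y) ∧
    ∀ (E : IntermediateField F K), (∀ c ∈ E, ∃ l : L, i l = c) → (∀ l : L, i l ∈ E) →
      ∀ (n : ℕ) (P : CommRing.Pic (Ax E x)), ∃ Q : CommRing.Pic (Ax E x), P = Q ^ ℓ ^ n := by
  have hFa : IsAlgClosed F := IsAlgClosure.isAlgClosed k
  have hF0 : (ℓ : F) ≠ 0 := by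
    rw [← map_natCast (algebraMap k F)]
    exact (_root_.map_ne_zero _).mpr hk
  obtain ⟨hsep, hG⟩ := good_of (Ω := Ω) (L := L) hℓ hk hB
  obtain ⟨Φ, hΦ⟩ := exists_model_gen (Ω := Ω) (S := S) hind hy i hi hgen (map_base_eq F L f)
  have hinj : Function.Injective (algebraMap F[X] L) := IsFractionRing.injective F[X] L
  have hBr : BrTriv ℓ L Ω := by
    intro b hb
    refine tsen (C := F) hℓ ?_ b hb
    have h1 : algebraMap F[X] L (C (ℓ : F)) = (ℓ : L) := by
      rw [map_natCast, map_natCast]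
    rw [← h1]
    intro h0
    have h2 := hinj (h0.trans (map_zero _).symm)
    exact hF0 (C_eq_zero.1 h2)
  have hΓ : FixFam (k := k) L (AutK k F L Ω) := fixFamK
  have hLT : ∀ Q : JacOver ℓ (f.map (base k F L L)) Ω, LTa F ℓ (f.map (base k F L L))
      fun σ => symJ (gs (f.map (base k F L L)) σ) Q - Q := fun Q => lta_cob Q
  have hNT' : ∀ k' : IntermediateField k F, FiniteDimensional k k' →
      NTg ℓ (ℓ ^ 0) (f.map (base k F L L)) (LTa F ℓ (f.map (base k F L L))) (AutK k F L Ω k') := by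
    intro k' hk'
    rw [pow_zero]
    exact hNT k' hk'
  refine ⟨fun k' hk' => ?_, fun E hE1 hE2 n P => ?_⟩
  · intro b hb hu hfix
    refine transfer (k := k) hℓ hΦ hBr hΓ hLT (fun b C hb hu hC hn => hV b C hb hu hC hn) hNT' k' hk'
      (A := fun γ => (∀ c : F, c ∈ k' → γ (algebraMap K S (algebraMap F K c)) =
        algebraMap K S (algebraMap F K c)) ∧ γ (algebraMap K S t) = algebraMap K S t ∧
        γ (algebraMap K S x) = algebraMap K S x ∧
        γ (algebraMap K S y) = algebraMap K S y) ?_ b hb hu ?_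
    · intro γ hγ
      obtain ⟨σ, τ, h1, h2, h3⟩ := exists_of_mem_autK' k' hγ
      refine ⟨σ, h1, fun γ' h4 h5 h6 => ⟨fun c hc => ?_, ?_, h5, h6⟩⟩
      · have h7 := h4 (algebraMap F[X] L (C c))
        rw [h3, hi, hi, map_C, aeval_C, aeval_C] at h7
        rw [h7]
        congr 2
        exact h2 c hc
      · have h7 := h4 (algebraMap F[X] L X)
        rw [h3, hi, hi, map_X, aeval_X] at h7
        exact h7
    · intro γ hγ n
      exact hfix γ hγ.1 hγ.2.1 hγ.2.2.1 hγ.2.2.2 n
  · obtain ⟨κ, hκ⟩ := hΦ.exists_kappa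
    have hy0 : y ≠ 0 := by
      rintro rfl
      have h3 := kappa_y hΦ hκ
      rw [map_zero] at h3
      exact yF_ne_zero h3.symm
    have hxR : x ∈ Rx E x := Algebra.subset_adjoin (Set.mem_singleton x)
    have hEl : ∀ l : L, i l ∈ Rx E x := fun l =>
      Subalgebra.algebraMap_mem (Rx E x) (⟨i l, hE2 l⟩ : E)
    have hyR : y ^ ℓ ∈ Rx E x := by
      rw [hy, Zs.val, eval₂_eq_sum_range]
      refine sum_mem fun n _ => mul_mem ?_ (pow_mem hxR n)
      have h1 := hEl (algebraMap F[X] L ((Zs.ext F f).coeff n))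
      rw [hi] at h1
      exact h1
    obtain ⟨hDd, hFr⟩ := isDedekindDomain_Ax hℓ.ne_zero hF0 hy0 hyR (fun M hM hy =>
      hgen M (fun z => hM _ (hEl z)) (hM _ hxR) hy)
    have hMW := mordell_weil (k := k) (F := F) hℓ hΓ hLT hNT'
    obtain ⟨Q, hQ⟩ := pic_R hℓ hΦ hκ hBr hMW (fun r => kappa_Rx hΦ hκ hE1 r.1 r.2)
      (fun p => by
        obtain ⟨r, hr, hrp⟩ := exists_Rx hΦ hκ hE2 p
        exact ⟨⟨r, hr⟩, hrp⟩) hDd hFr n P
    rw [pow_zero, pow_one] at hQ
    exact ⟨Q, hQ⟩

lemma pic_of {ℓ : ℕ} {F K : Type} [Field F] [Field K] [Algebra F K] {T : Set K} {x : K}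
    (h : ∀ (n : ℕ) (P : CommRing.Pic (integralClosure
      (Algebra.adjoin (IntermediateField.adjoin F T) ({x} : Set K)) K)),
      ∃ Q : CommRing.Pic (integralClosure
        (Algebra.adjoin (IntermediateField.adjoin F T) ({x} : Set K)) K),
        P = Q ^ ℓ ^ n) : PicPowOver ℓ (affineRing F T x) := by
  rw [affineRing_eq]
  exact h

/-- The theorem for the fields `F(t, x, y)`. -/
theorem zs_main {ℓ e : ℕ} (hℓ : ℓ.Prime) {k F K : Type} [Field k] [Field F] [Algebra k F]
    [IsAlgClosure k F] [Field K] [Algebra F K] (hk : (ℓ : k) ≠ 0) {f : k[X][X]} (hB : IsBranchCurve ℓ e F f)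
    (hV : ∀ (L Ω : Type) [Field L] [Algebra F[X] L] [IsFractionRing F[X] L] [Field Ω] [Algebra L Ω]
      [IsAlgClosure L Ω] [IsGood ℓ ((f.map (base k F L L)).map (algebraMap L Ω))],
      LocProp ℓ F Ω (f.map (base k F L L)))
    (hNT : ∀ (L Ω : Type) [Field L] [Algebra F[X] L] [IsFractionRing F[X] L] [Field Ω] [Algebra L Ω]
      [IsAlgClosure L Ω] (k' : IntermediateField k F), FiniteDimensional k k' →
      NTg ℓ 1 (f.map (base k F L L)) (LTa F ℓ (f.map (base k F L L))) (AutK k F L Ω k'))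
    {t x y : K} (hK : IsCoverField ℓ F f t x y) :
    (∀ (S : Type) [Field S] [Algebra K S] [IsAlgClosure K S] (k' : IntermediateField k F),
      FiniteDimensional k k' → BrauerInvariantsTrivial ℓ S k' t x y) ∧
    ∀ (n : ℕ) (P : CommRing.Pic (affineRing F {t} x)),
      ∃ Q : CommRing.Pic (affineRing F {t} x), P = Q ^ ℓ ^ n := by
  have htr : Transcendental F t := by
    have h4 := hK.independent.transcendental 0
    exact h4
  have hinj : Function.Injective ((aeval t : F[X] →ₐ[F] K) : F[X] →+* K) := by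
    rw [injective_iff_map_eq_zero]
    intro p hp
    exact (transcendental_iff.1 htr) p hp
  let i : RatFunc F →+* K := IsFractionRing.lift hinj
  have hi : ∀ p : F[X], i (algebraMap F[X] (RatFunc F) p) = aeval t p := fun p =>
    IsFractionRing.lift_algebraMap hinj p
  have hiE : ∀ l : RatFunc F, i l ∈ IntermediateField.adjoin F ({t} : Set K) := by
    intro l
    obtain ⟨p, q, hq, rfl⟩ := IsFractionRing.div_surjective (A := F[X]) l
    rw [map_div₀, hi, hi]
    have h1 : ∀ p : F[X], aeval t p ∈ IntermediateField.adjoin F ({t} : Set K) := by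
      intro p
      rw [aeval_def, eval₂_eq_sum_range]
      exact sum_mem fun n _ => mul_mem (IntermediateField.algebraMap_mem _ _)
        (pow_mem (IntermediateField.mem_adjoin_simple_self F t) n)
    exact div_mem (h1 p) (h1 q)
  have hEi : ∀ c ∈ IntermediateField.adjoin F ({t} : Set K), ∃ l : RatFunc F, i l = c := by
    intro c hc
    let M : IntermediateField F K :=
      { i.fieldRange with
        algebraMap_mem' := fun c => ⟨algebraMap F[X] (RatFunc F) (C c), by rw [hi, aeval_C]⟩ }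
    have h1 : IntermediateField.adjoin F ({t} : Set K) ≤ M := by
      rw [IntermediateField.adjoin_simple_le_iff]
      exact ⟨algebraMap F[X] (RatFunc F) X, by rw [hi, aeval_X]⟩
    exact h1 hc
  have hgen : ∀ M : Subfield K, (∀ z : RatFunc F, i z ∈ M) → x ∈ M → y ∈ M → M = ⊤ := by
    intro M h1 h2 h3
    rw [eq_top_iff]
    intro z _
    let M' : IntermediateField F K := { M with
      algebraMap_mem' := fun c => by
        have h4 := h1 (algebraMap F[X] (RatFunc F) (C c))
        rw [hi, aeval_C] at h4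
        exact h4 }
    have h4 : IntermediateField.adjoin F {t, x, y} ≤ M' := by
      rw [IntermediateField.adjoin_le_iff]
      intro w hw
      rcases hw with rfl | rfl | hw
      · have h4 := h1 (algebraMap F[X] (RatFunc F) X)
        rw [hi, aeval_X] at h4
        exact h4
      · exact h2
      · rw [Set.mem_singleton_iff.1 hw]
        exact h3
    rw [hK.generate] at h4
    exact h4 IntermediateField.mem_top
  let Ω := AlgebraicClosure (RatFunc F)
  have hmain := fun (S : Type) (_ : Field S) (_ : Algebra K S) (_ : IsAlgClosure K S) =>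
    zs_aux (S := S) (Ω := Ω) (L := RatFunc F) hℓ hk hB (fun {_} => hV (RatFunc F) Ω)
    (fun k' hk' => hNT (RatFunc F) Ω k' hk') hK.independent hK.equation i hi hgen
  refine ⟨fun S i₁ i₂ i₃ k' hk' => (hmain S i₁ i₂ i₃).1 k' hk', ?_⟩
  exact pic_of fun n P => (hmain (AlgebraicClosure K) inferInstance inferInstance inferInstance).2
    (IntermediateField.adjoin F ({t} : Set K)) hEi hiE n P

end Pool.Agent.Lib.MP_89bcae_ag.Zc
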