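import Pool.Agent.Lib.MP_89bcae_ag.Tk.K033

/-!
# Rescaling of the coordinates

The isomorphism `x = a x'`, `y = b y'` of the curves `y ^ N = f(x)` and `y' ^ N = f'(x')`, where
`b ^ N f'(x') = f(a x')`.
-/

open Polynomial IsDedekindDomain

open scoped Classical

namespace Pool.Agent.Lib.MP_89bcae_ag.Wt

universe u

/-- `x = a x'`, `y = b y'` maps `y ^ N = f(x)` to `y' ^ N = f'(x')`. -/
structure Scale (N : ℕ) {A : Type u} [Field A] (f f' : A[X]) (a b : A) : Prop where
  a_ne : a ≠ 0
  b_ne : b ≠ 0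
  eq : C (b ^ N) * f' = f.comp (C a * X)

section Basic

variable {N : ℕ} {A : Type u} [Field A] {f f' : A[X]} {a b : A}

lemma comp_scale_inv (ha : a ≠ 0) (p : A[X]) :
    (p.comp (C a * X)).comp (C a⁻¹ * X) = p := by
  rw [comp_assoc, mul_comp, C_comp, X_comp, ← mul_assoc, ← C_mul, mul_inv_cancel₀ ha, C_1, one_mul,
    comp_X]

lemma comp_inv_scale (ha : a ≠ 0) (p : A[X]) :
    (p.comp (C a⁻¹ * X)).comp (C a * X) = p := by
  have h := comp_scale_inv (inv_ne_zero ha) p
  rwa [inv_inv] at h

lemma Scale.symm (h : Scale N f f' a b) : Scale N f' f a⁻¹ b⁻¹ where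
  a_ne := inv_ne_zero h.a_ne
  b_ne := inv_ne_zero h.b_ne
  eq := by
    have h1 := congrArg (fun p : A[X] => p.comp (C a⁻¹ * X)) h.eq
    simp only [mul_comp, C_comp] at h1
    rw [comp_scale_inv h.a_ne] at h1
    rw [← h1, ← mul_assoc, ← C_mul, inv_pow, inv_mul_cancel₀ (pow_ne_zero _ h.b_ne), C_1, one_mul]

lemma comp_scale_injective (ha : a ≠ 0) :
    Function.Injective (compRingHom (C a * X : A[X])) := by
  intro p q h
  change p.comp (C a * X) = q.comp (C a * X) at h
  rw [← comp_scale_inv ha p, h, comp_scale_inv ha]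

/-- `p(x) ↦ p(a x)` on rational functions. -/
noncomputable def scRat (ha : a ≠ 0) : RatFunc A →+* RatFunc A :=
  RatFunc.mapRingHom (compRingHom (C a * X : A[X]))
    (nonZeroDivisors_le_comap_nonZeroDivisors_of_injective _ (comp_scale_injective ha))

lemma scRat_algebraMap (ha : a ≠ 0) (p : A[X]) :
    scRat ha (algebraMap A[X] (RatFunc A) p) = algebraMap A[X] (RatFunc A) (p.comp (C a * X)) := by
  have h := RatFunc.map_apply_div (compRingHom (C a * X : A[X]))
    (nonZeroDivisors_le_comap_nonZeroDivisors_of_injective _ (comp_scale_injective ha)) p 1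
  rw [map_one, _root_.div_one, map_one, map_one, _root_.div_one] at h
  rw [scRat, RatFunc.coe_mapRingHom_eq_coe_map]
  exact h

/-- The homomorphism of the rings of rational functions given by `x = a x'`, `y = b y'`. -/
noncomputable def scH (h : Scale N f f' a b) : FunField N f →+* FunField N f' :=
  AdjoinRoot.lift ((AdjoinRoot.of _).comp (scRat h.a_ne)) (polyF (C b) * yF) (by
    rw [eval₂_sub, eval₂_pow, eval₂_X, eval₂_C, mul_pow, yF_pow, ← map_pow, ← C_pow, ← map_mul,
      h.eq, RingHom.comp_apply, scRat_algebraMap, ← polyF_eq, sub_self])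

lemma scH_polyF (h : Scale N f f' a b) (p : A[X]) :
    scH h (polyF p : FunField N f) = polyF (p.comp (C a * X)) := by
  rw [polyF_eq]
  unfold scH
  rw [AdjoinRoot.lift_of, RingHom.comp_apply, scRat_algebraMap, ← polyF_eq]

lemma scH_yF (h : Scale N f f' a b) :
    scH h (yF : FunField N f) = polyF (C b) * yF := by
  unfold scH
  exact AdjoinRoot.lift_root _

lemma scH_comp (h : Scale N f f' a b) : (scH h.symm).comp (scH h) = RingHom.id (FunField N f) := by
  refine funField_hom_ext (fun p => ?_) ?_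
  · rw [RingHom.comp_apply, scH_polyF, scH_polyF, comp_scale_inv h.a_ne, RingHom.id_apply]
  · rw [RingHom.comp_apply, scH_yF, map_mul, scH_polyF, scH_yF, RingHom.id_apply, ← mul_assoc,
      ← map_mul, C_comp, ← C_mul, mul_inv_cancel₀ h.b_ne, C_1, map_one, one_mul]

lemma scH_comp' (h : Scale N f f' a b) : (scH h).comp (scH h.symm) = RingHom.id (FunField N f') := by
  refine funField_hom_ext (fun p => ?_) ?_
  · rw [RingHom.comp_apply, scH_polyF, scH_polyF, comp_inv_scale h.a_ne, RingHom.id_apply]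
  · rw [RingHom.comp_apply, scH_yF, map_mul, scH_polyF, scH_yF, RingHom.id_apply, ← mul_assoc,
      ← map_mul, C_comp, ← C_mul, inv_mul_cancel₀ h.b_ne, C_1, map_one, one_mul]

/-- The isomorphism of the rings of rational functions given by `x = a x'`, `y = b y'`. -/
noncomputable def scF (h : Scale N f f' a b) : FunField N f ≃+* FunField N f' :=
  RingEquiv.ofRingHom (scH h) (scH h.symm) (scH_comp' h) (scH_comp h)

lemma scF_apply (h : Scale N f f' a b) (z : FunField N f) : scF h z = scH h z := rfl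

lemma scF_symm (h : Scale N f f' a b) (z : FunField N f') : (scF h).symm z = scH h.symm z := rfl

@[simp] lemma scF_polyF (h : Scale N f f' a b) (p : A[X]) :
    scF h (polyF p : FunField N f) = polyF (p.comp (C a * X)) := scH_polyF h p

@[simp] lemma scF_yF (h : Scale N f f' a b) :
    scF h (yF : FunField N f) = polyF (C b) * yF := scH_yF h

/-- The isomorphism of the groups of nonzero functions. -/
noncomputable def scU (h : Scale N f f' a b) : (FunField N f)ˣ ≃* (FunField N f')ˣ :=
  Units.mapEquiv (scF h : FunField N f ≃* FunField N f')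

lemma scU_val (h : Scale N f f' a b) (u : (FunField N f)ˣ) :
    ((scU h u : (FunField N f')ˣ) : FunField N f') = scF h (u : FunField N f) := rfl

lemma scH_isIntegral (h : Scale N f f' a b) (z : NRing N f) :
    scH h (z : FunField N f) ∈ integralClosure A[X] (FunField N f') := by
  obtain ⟨p, hp, hpa⟩ := (z.2 : IsIntegral A[X] (z : FunField N f))
  refine ⟨p.map (compRingHom (C a * X)), hp.map _, ?_⟩
  rw [Polynomial.eval₂_map, show (algebraMap A[X] (FunField N f')).comp (compRingHom (C a * X)) =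
    (scH h).comp (algebraMap A[X] (FunField N f)) from
      RingHom.ext fun q => (scH_polyF h q).symm, ← Polynomial.hom_eval₂, hpa, map_zero]

/-- The homomorphism of the coordinate rings. -/
noncomputable def scC (h : Scale N f f' a b) : NRing N f →+* NRing N f' :=
  ((scH h).comp (algebraMap (NRing N f) (FunField N f))).codRestrict
    (integralClosure A[X] (FunField N f')) (scH_isIntegral h)

/-- The isomorphism of the coordinate rings. -/
noncomputable def scE (h : Scale N f f' a b) : NRing N f ≃+* NRing N f' :=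
  RingEquiv.ofRingHom (scC h) (scC h.symm)
    (RingHom.ext fun z => Subtype.ext (RingHom.congr_fun (scH_comp' h) (z : FunField N f')))
    (RingHom.ext fun z => Subtype.ext (RingHom.congr_fun (scH_comp h) (z : FunField N f)))

lemma coe_scE (h : Scale N f f' a b) (z : NRing N f) :
    ((scE h z : NRing N f') : FunField N f') = scF h (z : FunField N f) := rfl

lemma scE_ofPoly (h : Scale N f f' a b) (p : A[X]) :
    scE h (ofPoly p : NRing N f) = ofPoly (p.comp (C a * X)) := Subtype.ext (scF_polyF h p)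

lemma Scale.eval (h : Scale N f f' a b) (x : A) : b ^ N * f'.eval (x / a) = f.eval x := by
  have h1 := congrArg (fun p : A[X] => p.eval (x / a)) h.eq
  simp only [eval_mul, eval_C, eval_comp, eval_X] at h1
  rwa [mul_div_cancel₀ _ h.a_ne] at h1

/-- The image of a point. -/
def scP (h : Scale N f f' a b) (P : Pt N f) : Pt N f' :=
  ⟨P.x / a, P.y / b, by
    rw [div_pow, P.eq, ← h.eval, mul_div_cancel_left₀ _ (pow_ne_zero _ h.b_ne)]⟩

/-- The bijection of the points, `(x, y) ↦ (x / a, y / b)`. -/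
def scPt (h : Scale N f f' a b) : Pt N f ≃ Pt N f' where
  toFun := scP h
  invFun := scP h.symm
  left_inv P := Pt.ext (by
    change P.x / a / a⁻¹ = P.x
    rw [div_inv_eq_mul, div_mul_cancel₀ _ h.a_ne]) (by
    change P.y / b / b⁻¹ = P.y
    rw [div_inv_eq_mul, div_mul_cancel₀ _ h.b_ne])
  right_inv P := Pt.ext (by
    change P.x / a⁻¹ / a = P.x
    rw [div_inv_eq_mul, mul_div_cancel_right₀ _ h.a_ne]) (by
    change P.y / b⁻¹ / b = P.y
    rw [div_inv_eq_mul, mul_div_cancel_right₀ _ h.b_ne])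

@[simp] lemma scPt_x (h : Scale N f f' a b) (P : Pt N f) : (scPt h P).x = P.x / a := rfl

@[simp] lemma scPt_y (h : Scale N f f' a b) (P : Pt N f) : (scPt h P).y = P.y / b := rfl

end Basic

section Good

variable {N : ℕ} {A : Type u} [Field A] {f f' : A[X]} [hG : IsGood N f] [hG' : IsGood N f']
  {a b : A}

lemma scE_yy (h : Scale N f f' a b) :
    scE h (yy : NRing N f) = ofPoly (C b) * yy := Subtype.ext (scF_yF h)

lemma evalPt_scE (h : Scale N f f' a b) (P : Pt N f) (z : NRing N f) :
    evalPt (scPt h P) (scE h z) = evalPt P z := by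
  have h1 := hom_unique (RingHom.id A) P
    ((evalPt (scPt h P)).comp (scE h : NRing N f →+* NRing N f')) (evalPt P) (fun p => by
      change evalPt (scPt h P) (scE h (ofPoly p)) = _
      rw [scE_ofPoly, evalPt_ofPoly, eval_comp, eval_mul, eval_C, eval_X, scPt_x,
        mul_div_cancel₀ _ h.a_ne]
      rfl) (by
      change evalPt (scPt h P) (scE h yy) = _
      rw [scE_yy, map_mul, evalPt_ofPoly, evalPt_yy, eval_C, scPt_y, mul_div_cancel₀ _ h.b_ne]
      rfl) (fun p => by
      rw [evalPt_ofPoly]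
      rfl) (by
      rw [evalPt_yy]
      rfl)
  exact congrArg (fun g : NRing N f →+* A => g z) h1

lemma sc_ideal (h : Scale N f f' a b) (P : Pt N f) :
    P.ideal.map (scE h : NRing N f →+* NRing N f') = (scPt h P).ideal := by
  ext z
  rw [Ideal.mem_map_iff_of_surjective (scE h : NRing N f →+* NRing N f') (scE h).surjective]
  constructor
  · rintro ⟨w, hw, rfl⟩
    have hw' : evalPt P w = 0 := hw
    change evalPt (scPt h P) (scE h w) = 0
    rw [evalPt_scE, hw']
  · intro hz
    have hz' : evalPt (scPt h P) z = 0 := hz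
    refine ⟨(scE h).symm z, ?_, by simp⟩
    change evalPt P ((scE h).symm z) = 0
    rw [← evalPt_scE h, RingEquiv.apply_symm_apply, hz']

lemma sc_pow (h : Scale N f f' a b) (P : Pt N f) (n : ℕ) (z : NRing N f) :
    scE h z ∈ (scPt h P).hs.asIdeal ^ n ↔ z ∈ P.hs.asIdeal ^ n := by
  have h1 : P.hs.asIdeal = P.ideal := rfl
  have h2 : (scPt h P).hs.asIdeal = (scPt h P).ideal := rfl
  rw [h1, h2, ← sc_ideal h P, ← Ideal.map_pow,
    Ideal.mem_map_iff_of_surjective (scE h : NRing N f →+* NRing N f') (scE h).surjective]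
  constructor
  · rintro ⟨w, hw, hwz⟩
    rwa [← (scE h).injective hwz]
  · intro hz
    exact ⟨z, hz, rfl⟩

lemma sc_int (h : Scale N f f' a b) (P : Pt N f) (z : NRing N f) :
    (scPt h P).hs.intValuation (scE h z) = P.hs.intValuation z := by
  by_cases hz : z = 0
  · subst hz
    simp
  · have hz' : scE h z ≠ 0 := fun h0 => hz ((map_eq_zero_iff _ (scE h).injective).1 h0)
    have h1 := P.hs.intValuation_if_neg hz
    have h2 := (scPt h P).hs.intValuation_if_neg hz'
    apply le_antisymm
    · rw [h1, HeightOneSpectrum.intValuation_le_pow_iff_mem, sc_pow,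
        ← HeightOneSpectrum.intValuation_le_pow_iff_mem, h1]
    · rw [h2, HeightOneSpectrum.intValuation_le_pow_iff_mem, ← sc_pow h,
        ← HeightOneSpectrum.intValuation_le_pow_iff_mem, h2]

lemma ord_scU (h : Scale N f f' a b) (P : Pt N f) (u : (FunField N f)ˣ) :
    ord (scPt h P) (scU h u) = ord P u := by
  have key : (scPt h P).hs.valuation (FunField N f') ((scU h u : (FunField N f')ˣ) : FunField N f')
      = P.hs.valuation (FunField N f) (u : FunField N f) := by
    rw [scU_val]
    obtain ⟨z, w, hw, hzw⟩ := IsFractionRing.div_surjective (A := NRing N f) (u : FunField N f)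
    have hc : ∀ t : NRing N f, scF h (algebraMap (NRing N f) (FunField N f) t) =
        algebraMap (NRing N f') (FunField N f') (scE h t) := fun t => rfl
    rw [← hzw, map_div₀, hc, hc, map_div₀, map_div₀]
    rw [HeightOneSpectrum.valuation_of_algebraMap, HeightOneSpectrum.valuation_of_algebraMap,
      HeightOneSpectrum.valuation_of_algebraMap, HeightOneSpectrum.valuation_of_algebraMap,
      sc_int h P, sc_int h P]
  unfold ord
  rw [key]

lemma div_scU (h : Scale N f f' a b) (u : (FunField N f)ˣ) :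
    div (scU h u) = (div u).mapDomain (scPt h) := by
  ext Q
  obtain ⟨P, rfl⟩ := (scPt h).surjective Q
  rw [Finsupp.mapDomain_apply (scPt h).injective, div_apply, div_apply, ord_scU]

/-- The homomorphism on divisor classes. -/
lemma exists_scH_J (h : Scale N f f' a b) : ∃ Z : Jac N f →+ Jac N f', ∀ D : Pt N f →₀ ℤ,
    Z (cl D) = cl (D.mapDomain (scPt h)) := by
  set g : (Pt N f →₀ ℤ) →+ Jac N f' :=
    (cl : (Pt N f' →₀ ℤ) →+ Jac N f').comp (Finsupp.mapDomain.addMonoidHom (scPt h)) with hg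
  have hker : (cl : (Pt N f →₀ ℤ) →+ Jac N f).ker ≤ g.ker := by
    intro D hD
    rw [AddMonoidHom.mem_ker] at hD ⊢
    obtain ⟨u, hu⟩ := exists_div_of_cl_eq_zero D hD
    change cl (D.mapDomain (scPt h)) = 0
    rw [← hu, ← div_scU, cl_div]
  refine ⟨(cl : (Pt N f →₀ ℤ) →+ Jac N f).liftOfSurjective cl_surjective ⟨g, hker⟩,
    fun D => ?_⟩
  exact AddMonoidHom.liftOfRightInverse_comp_apply _ _ _ ⟨g, hker⟩ D

/-- The homomorphism of the Jacobians. -/
noncomputable def scJH (h : Scale N f f' a b) : Jac N f →+ Jac N f' := (exists_scH_J h).choose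

lemma scJH_cl (h : Scale N f f' a b) (D : Pt N f →₀ ℤ) :
    scJH h (cl D) = cl (D.mapDomain (scPt h)) := (exists_scH_J h).choose_spec D

lemma scJH_comp (h : Scale N f f' a b) (x : Jac N f) : scJH h.symm (scJH h x) = x := by
  obtain ⟨D, rfl⟩ := cl_surjective x
  rw [scJH_cl, scJH_cl, ← Finsupp.mapDomain_comp]
  have h1 : (scPt h.symm : Pt N f' → Pt N f) ∘ (scPt h : Pt N f → Pt N f') = id := by
    funext P
    exact (scPt h).symm_apply_apply P
  rw [h1, Finsupp.mapDomain_id]

lemma scJH_comp' (h : Scale N f f' a b) (x : Jac N f') : scJH h (scJH h.symm x) = x := by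
  obtain ⟨D, rfl⟩ := cl_surjective x
  rw [scJH_cl, scJH_cl, ← Finsupp.mapDomain_comp]
  have h1 : (scPt h : Pt N f → Pt N f') ∘ (scPt h.symm : Pt N f' → Pt N f) = id := by
    funext P
    exact (scPt h).apply_symm_apply P
  rw [h1, Finsupp.mapDomain_id]

/-- The isomorphism of the Jacobians. -/
noncomputable def scJ (h : Scale N f f' a b) : Jac N f ≃+ Jac N f' where
  toFun := scJH h
  invFun := scJH h.symm
  left_inv := scJH_comp h
  right_inv := scJH_comp' h
  map_add' := map_add (scJH h)

@[simp] lemma scJ_cl (h : Scale N f f' a b) (D : Pt N f →₀ ℤ) :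
    scJ h (cl D) = cl (D.mapDomain (scPt h)) := scJH_cl h D

/-! ### Symmetries -/

omit hG hG' in
lemma scPt_sym (h : Scale N f f' a b) (σ : Sym f) (σ' : Sym f')
    (hσ : (σ : A ≃+* A) = (σ' : A ≃+* A)) (ha : (σ : A ≃+* A) a = a) (hb : (σ : A ≃+* A) b = b)
    (P : Pt N f) : scPt h (P.sym σ) = (scPt h P).sym σ' := by
  apply Pt.ext
  · change (σ : A ≃+* A) P.x / a = (σ' : A ≃+* A) (P.x / a)
    rw [← hσ, map_div₀, ha]
  · change (σ : A ≃+* A) P.y / b = (σ' : A ≃+* A) (P.y / b)
    rw [← hσ, map_div₀, hb]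

lemma scJ_symJ (h : Scale N f f' a b) (σ : Sym f) (σ' : Sym f')
    (hσ : (σ : A ≃+* A) = (σ' : A ≃+* A)) (ha : (σ : A ≃+* A) a = a) (hb : (σ : A ≃+* A) b = b)
    (x : Jac N f) : scJ h (symJ σ x) = symJ σ' (scJ h x) := by
  obtain ⟨D, rfl⟩ := cl_surjective x
  rw [symJ_cl, scJ_cl, scJ_cl, symJ_cl, ← Finsupp.mapDomain_comp, ← Finsupp.mapDomain_comp]
  congr 2
  funext P
  exact scPt_sym h σ σ' hσ ha hb P

omit hG hG' in
lemma scPt_rot (h : Scale N f f' a b) (ζ : A) (hζ : ζ ^ N = 1) (P : Pt N f) :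
    scPt h (P.rot ζ hζ) = (scPt h P).rot ζ hζ := by
  apply Pt.ext
  · rfl
  · change ζ * P.y / b = ζ * (P.y / b)
    rw [mul_div_assoc]

lemma scJ_zJ (h : Scale N f f' a b) (ζ : A) (hζ : ζ ^ N = 1) (x : Jac N f) :
    scJ h (zJ ζ hζ x) = zJ ζ hζ (scJ h x) := by
  obtain ⟨D, rfl⟩ := cl_surjective x
  rw [zJ_cl, scJ_cl, scJ_cl, zJ_cl, ← Finsupp.mapDomain_comp, ← Finsupp.mapDomain_comp]
  congr 2
  funext P
  exact scPt_rot h ζ hζ P

lemma ramDiv_sc (h : Scale N f f' a b) (e : A → ℤ) :
    (ramDiv e : Pt N f →₀ ℤ).mapDomain (scPt h) = ramDiv fun θ => e (a * θ) := by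
  ext Q
  obtain ⟨P, rfl⟩ := (scPt h).surjective Q
  rw [Finsupp.mapDomain_apply (scPt h).injective, ramDiv_apply, ramDiv_apply, scPt_x, scPt_y,
    mul_div_cancel₀ _ h.a_ne]
  by_cases hP : P.y = 0
  · rw [if_pos hP, if_pos (by rw [hP, zero_div])]
  · rw [if_neg hP, if_neg (div_ne_zero hP h.b_ne)]

lemma scJ_ram (h : Scale N f f' a b) (e : A → ℤ) :
    scJ h (ram e : Jac N f) = ram fun θ => e (a * θ) := by
  rw [ram, scJ_cl, ramDiv_sc]
  rfl

end Good

/-! ### Base change -/

section Map

variable {N : ℕ} {A B : Type u} [Field A] [Field B] {f f' : A[X]} {g g' : B[X]} {a b : A}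

lemma scH_funMap (φ : A →+* B) (hf : f.map φ = g) (hf' : f'.map φ = g') (h : Scale N f f' a b)
    (h' : Scale N g g' (φ a) (φ b)) (z : FunField N f) :
    scH h' (funMap N φ hf z) = funMap N φ hf' (scH h z) := by
  have key : (scH h').comp (funMap N φ hf) = (funMap N φ hf').comp (scH h) := by
    refine funField_hom_ext (fun p => ?_) ?_
    · rw [RingHom.comp_apply, RingHom.comp_apply, funMap_polyF, scH_polyF, scH_polyF,
        funMap_polyF, Polynomial.map_comp, Polynomial.map_mul, Polynomial.map_C, Polynomial.map_X]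
    · rw [RingHom.comp_apply, RingHom.comp_apply, funMap_yF, scH_yF, scH_yF, map_mul,
        funMap_polyF, funMap_yF, Polynomial.map_C]
  exact RingHom.congr_fun key z

lemma scF_funMap (φ : A →+* B) (hf : f.map φ = g) (hf' : f'.map φ = g') (h : Scale N f f' a b)
    (h' : Scale N g g' (φ a) (φ b)) (z : FunField N f) :
    scF h' (funMap N φ hf z) = funMap N φ hf' (scF h z) := scH_funMap φ hf hf' h h' z

lemma scPt_map (φ : A →+* B) (hf : f.map φ = g) (hf' : f'.map φ = g') (h : Scale N f f' a b)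
    (h' : Scale N g g' (φ a) (φ b)) (P : Pt N f) :
    scPt h' (P.map φ hf) = (scPt h P).map φ hf' := by
  apply Pt.ext
  · change φ P.x / φ a = φ (P.x / a)
    rw [map_div₀]
  · change φ P.y / φ b = φ (P.y / b)
    rw [map_div₀]

lemma scJ_jacMap [hG : IsGood N f] [hG' : IsGood N f'] [hH : IsGood N g] [hH' : IsGood N g']
    (φ : A →+* B) (hf : f.map φ = g) (hf' : f'.map φ = g') (h : Scale N f f' a b)
    (h' : Scale N g g' (φ a) (φ b)) (x : Jac N f) :
    scJ h' (jacMap N φ hf x) = jacMap N φ hf' (scJ h x) := by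
  obtain ⟨D, rfl⟩ := cl_surjective x
  rw [jacMap_cl, scJ_cl, scJ_cl, jacMap_cl, ← Finsupp.mapDomain_comp, ← Finsupp.mapDomain_comp]
  congr 2
  funext P
  exact scPt_map φ hf hf' h h' P

/-- The scaling datum after base change. -/
lemma Scale.map (φ : A →+* B) (hf : f.map φ = g) (hf' : f'.map φ = g') (h : Scale N f f' a b) :
    Scale N g g' (φ a) (φ b) where
  a_ne := (map_ne_zero φ).2 h.a_ne
  b_ne := (map_ne_zero φ).2 h.b_ne
  eq := by
    have h1 := congrArg (Polynomial.map φ) h.eq
    rw [Polynomial.map_mul, Polynomial.map_C, hf', Polynomial.map_comp, Polynomial.map_mul,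
      Polynomial.map_C, Polynomial.map_X, hf, map_pow] at h1
    exact h1

end Map

section Sym

variable {N : ℕ} {A : Type u} [Field A] {f f' : A[X]} [hG : IsGood N f] [hG' : IsGood N f']
  {a b : A}

omit hG hG' in
lemma scE_symE (h : Scale N f f' a b) (σ : Sym f) (σ' : Sym f')
    (hσ : (σ : A ≃+* A) = (σ' : A ≃+* A)) (ha : (σ : A ≃+* A) a = a) (hb : (σ : A ≃+* A) b = b)
    (z : NRing N f) : scE h (symE N σ z) = symE N σ' (scE h z) := by
  obtain ⟨σ, hσ1⟩ := σ
  obtain ⟨σ', hσ1'⟩ := σ'
  change σ = σ' at hσ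
  subst hσ
  change σ a = a at ha
  change σ b = b at hb
  apply Subtype.ext
  have h' : Scale N f f' ((σ : A →+* A) a) ((σ : A →+* A) b) := by
    change Scale N f f' (σ a) (σ b)
    rw [ha, hb]
    exact h
  have h1 := scH_funMap (σ : A →+* A) hσ1 hσ1' h h' (z : FunField N f)
  have h2 : scH h' (funMap N (σ : A →+* A) hσ1 (z : FunField N f)) =
      scH h (funMap N (σ : A →+* A) hσ1 (z : FunField N f)) := by
    congr 2
  rw [h2] at h1
  exact h1

lemma scU_symU (h : Scale N f f' a b) (σ : Sym f) (σ' : Sym f')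
    (hσ : (σ : A ≃+* A) = (σ' : A ≃+* A)) (ha : (σ : A ≃+* A) a = a) (hb : (σ : A ≃+* A) b = b)
    (u : (FunField N f)ˣ) : scU h (symU σ u) = symU σ' (scU h u) := by
  ext
  change scF h (autF (symE N σ) (u : FunField N f)) = autF (symE N σ') (scF h (u : FunField N f))
  obtain ⟨z, w, hw, hzw⟩ := IsFractionRing.div_surjective (A := NRing N f) (u : FunField N f)
  have hc : ∀ t : NRing N f, scF h (algebraMap (NRing N f) (FunField N f) t) =
      algebraMap (NRing N f') (FunField N f') (scE h t) := fun t => rfl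
  rw [← hzw]
  simp only [map_div₀, autF_algebraMap, hc, scE_symE h σ σ' hσ ha hb]

end Sym

end Pool.Agent.Lib.MP_89bcae_ag.Wt
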