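import Mathlib
import Pool.Agent.Lib.MP_89bcae_ag.Zc.Asm
import Pool.Agent.Lib.MP_89bcae_ag.Zc.Tra

/-!
# The Brauer groups and the Picard groups of the surfaces with smooth branch curve
-/

attribute [local instance 100000] Pool.Agent.Lib.MP_89bcae_ag.Brt.tffFields
attribute [local instance 100000] Pool.Agent.Lib.MP_89bcae_ag.Wt.ifrNF Pool.Agent.Lib.MP_89bcae_ag.Wt.iddNF

open Polynomial IsDedekindDomain

open scoped Classical

namespace Pool.Agent.Lib.MP_89bcae_ag.Zc

open Pool.Agent.Lib.MP_89bcae_ag.Wt Pool.Agent.Lib.MP_89bcae_ag.Wt.Lns Pool.Agent.Lib.MP_89bcae_ag.Bra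
  Pool.Agent.Lib.MP_89bcae_ag.Brt

open Pool.Agent.Lib.MP_89bcae_ag.Zs

/-- A polynomial remains separable after `x ↦ a x`. -/
lemma separable_comp_scale {A : Type} [Field A] {p : A[X]} (hp : p.Separable) {a : A} (ha : a ≠ 0) :
    (p.comp (C a * X)).Separable := by
  rw [Polynomial.separable_def] at hp ⊢
  have h1 := hp.map (compRingHom (C a * X : A[X]))
  have h2 : derivative (p.comp (C a * X)) = C a * (derivative p).comp (C a * X) := by
    rw [derivative_comp, derivative_C_mul_X]
  rw [h2, isCoprime_mul_unit_left_right (isUnit_C.2 (isUnit_iff_ne_zero.2 ha))]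
  exact h1

section

variable {k F L Ω : Type} [Field k] [Field F] [Algebra k F] [IsAlgClosure k F] [Field L]
    [Algebra F[X] L] [IsFractionRing F[X] L] [Field Ω] [Algebra L Ω] [IsAlgClosure L Ω] {ℓ e : ℕ}

/-- The unramified cocycles are locally trivial at all places. -/
theorem locProp (hℓ : ℓ.Prime) (hk : (ℓ : k) ≠ 0) {f : k[X][X]} (hB : IsBranchCurve ℓ e F f)
    [hG : IsGood ℓ ((f.map (base k F L L)).map (algebraMap L Ω))] : LocProp ℓ F Ω (f.map (base k F L L)) := by
  have hFa : IsAlgClosed F := IsAlgClosure.isAlgClosed k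
  have hF0 : (ℓ : F) ≠ 0 := by
    rw [← map_natCast (algebraMap k F)]
    exact (_root_.map_ne_zero _).mpr hk
  have : NeZero (ℓ : F) := ⟨hF0⟩
  have : NeZero ℓ := ⟨hℓ.ne_zero⟩
  obtain ⟨ζ, hζ⟩ : ∃ ζ : F, IsPrimitiveRoot ζ ℓ :=
    HasEnoughRootsOfUnity.exists_primitiveRoot F ℓ
  obtain ⟨hsep, -⟩ := good_of (Ω := Ω) (L := L) hℓ hk hB
  have hmon : (Zs.ext F f).Monic := hB.monic.map _
  have hdegn : (Zs.ext F f).natDegree = f.natDegree := hB.monic.natDegree_map _
  intro b D hb hu hD hn K M _ _ _ _ i j hij v hv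
  rcases le_or_gt (v (algebraMap K M (i (algebraMap F[X] L X)))) 1 with h | h
  · exact lt_fin hℓ hF0 hζ hmon (map_base_eq F L f) hsep hB.smooth i j hij hv h b hb hu D hD hn
  · obtain ⟨e', he'⟩ := hB.dvd
    have ht : algebraMap F[X] L X ≠ 0 := by
      rw [Ne, IsFractionRing.to_map_eq_zero_iff]
      exact X_ne_zero
    have hdeg : ∀ i, ((Zs.ext F f).coeff i).natDegree ≤ e * ((Zs.ext F f).natDegree - i) := by
      intro i
      rw [hdegn, Zs.ext, coeff_map]
      exact (natDegree_map_le).trans (hB.degree i)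
    have hS : Scale ℓ (f.map (base k F L L)) ((atInfinity e (Zs.ext F f)).map (invT F L))
        ((algebraMap F[X] L X) ^ e) ((algebraMap F[X] L X) ^ (e' * (Zs.ext F f).natDegree)) := by
      refine ⟨pow_ne_zero _ ht, pow_ne_zero _ ht, ?_⟩
      rw [map_base_eq]
      exact atInfinity_scale he' hdeg ht
    have hsep' : ((atInfinity e (Zs.ext F f)).map (invT F L)).Separable := by
      refine Separable.of_mul_right (f := C (((algebraMap F[X] L X) ^ (e' * (Zs.ext F f).natDegree)) ^ ℓ)) ?_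
      rw [hS.eq]
      exact separable_comp_scale hsep hS.a_ne
    have hmon' := atInfinity_monic (e := e) hmon
    have hG' : IsGood ℓ (((atInfinity e (Zs.ext F f)).map (invT F L)).map (algebraMap L Ω)) := by
      refine ⟨hG.alg, hG.one_lt, hG.ne_zero, fun θ hθ => ?_, ?_⟩
      · have hs : (((atInfinity e (Zs.ext F f)).map (invT F L)).map (algebraMap L Ω)).Separable := hsep'.map
        have h1 := Polynomial.rootMultiplicity_le_one_of_separable hs θ
        have h2 : 0 < (((atInfinity e (Zs.ext F f)).map (invT F L)).map (algebraMap L Ω)).rootMultiplicity θ :=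
          (Polynomial.rootMultiplicity_pos hs.ne_zero).mpr hθ
        rw [show (((atInfinity e (Zs.ext F f)).map (invT F L)).map (algebraMap L Ω)).rootMultiplicity θ = 1 by omega]
        exact Nat.coprime_one_left ℓ
      · rw [natDegree_map, hmon'.natDegree_map, atInfinity_natDegree hmon, hdegn]
        exact hB.coprime
    refine ltj_tr hS i j hij ?_
    have h1 := lt_gen hℓ hF0 hζ (invT F L) invT_C hmon' rfl hsep' hB.infinity i j hij (v := v)
      (fun {_ _} h1 h2 => locF_inf hv h (fun a => by rw [h1, invT_C]) (by rw [h1, invT_X]) h2)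
      (trB hS b) (icoc_tr hS hb) (iunr_tr hS hu) (trC hS D) (idiv_tr hS hD) (by
        obtain ⟨n, hn⟩ := hn
        refine ⟨n, fun g => ?_⟩
        rw [cl_trC, ← map_nsmul, hn, map_zero])
    refine Eq.mp (congrArg (LTj (Lv := K) ℓ ((atInfinity e (Zs.ext F f)).map (invT F L)) j) ?_) h1
    funext g
    exact cl_trC hS D g

end

/-- The Brauer side: if there are no nontrivial invariant classes in the Selmer groups, there are none in the Brauer
groups. -/
theorem coverTate_of {ℓ e : ℕ} {k F : Type} [Field k] [Field F] [Algebra k F] [IsAlgClosure k F] (hℓ : ℓ.Prime)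
    (hk : (ℓ : k) ≠ 0) {f : k[X][X]} (hB : IsBranchCurve ℓ e F f)
    (hNT : ∀ (L Ω : Type) [Field L] [Algebra F[X] L] [IsFractionRing F[X] L] [Field Ω] [Algebra L Ω]
      [IsAlgClosure L Ω] (k' : IntermediateField k F), FiniteDimensional k k' →
      NTg ℓ 1 (f.map (base k F L L)) (LTa F ℓ (f.map (base k F L L))) (AutK k F L Ω k')) :
    CoverTate ℓ F f := by
  refine ⟨?_, ?_⟩
  · intro K S _ _ _ _ _ t x y hK k' hk'
    exact (zs_main hℓ hk hB (fun L Ω _ _ _ _ _ _ _ => locProp hℓ hk hB) hNT hK).1 S k' hk'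
  · intro K _ _ t x y hK n P
    exact (zs_main hℓ hk hB (fun L Ω _ _ _ _ _ _ _ => locProp hℓ hk hB) hNT hK).2 n P

end Pool.Agent.Lib.MP_89bcae_ag.Zc
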